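import Mathlib

/-! # The standard Gaussian measure: density, shifts, dual Sudakov, Sudakov (helper57) -/

set_option autoImplicit false

open MeasureTheory ProbabilityTheory Set Module
open scoped RealInnerProductSpace ENNReal NNReal

namespace Pool.Agent.Work.MP_c13439_pq_h57

section density

variable {E : Type*} [NormedAddCommGroup E] [InnerProductSpace ℝ E] [FiniteDimensional ℝ E]
  [MeasurableSpace E] [BorelSpace E]

/-- the Gaussian density -/
noncomputable def gd (x : E) : ℝ :=
  (2 * Real.pi) ^ (-(finrank ℝ E : ℝ) / 2) * Real.exp (-‖x‖ ^ 2 / 2)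

theorem gd_pos (x : E) : 0 < gd x := by
  unfold gd
  have : (0 : ℝ) < 2 * Real.pi := by positivity
  positivity

theorem gd_cont : Continuous (gd : E → ℝ) := by
  unfold gd; fun_prop

theorem gd_int : Integrable (gd : E → ℝ) volume := by
  have h := GaussianFourier.integrable_cexp_neg_mul_sq_norm_add (V := E) (b := 1 / 2)
    (by norm_num) 0 0
  have h2 := h.norm
  refine (h2.const_mul ((2 * Real.pi) ^ (-(finrank ℝ E : ℝ) / 2))).congr
    (Filter.Eventually.of_forall fun x => ?_)
  simp only [gd, Complex.norm_exp]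
  congr 2
  simp
  ring_nf
  norm_cast

theorem std_density : stdGaussian E = volume.withDensity (fun x : E => ENNReal.ofReal (gd x)) := by
  have : IsFiniteMeasure (volume.withDensity (fun x : E => ENNReal.ofReal (gd x))) :=
    isFiniteMeasure_withDensity_ofReal gd_int.2
  apply Measure.ext_of_charFun
  ext t
  rw [charFun_stdGaussian, charFun_apply, integral_withDensity_eq_integral_toReal_smul]
  · have hpi : (0 : ℝ) < 2 * Real.pi := by positivity
    have h := GaussianFourier.integral_cexp_neg_mul_sq_norm_add (V := E) (b := 1 / 2)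
      (by norm_num) Complex.I t
    have e1 : ∀ x : E, (ENNReal.ofReal (gd x)).toReal • Complex.exp (⟪x, t⟫ * Complex.I) =
        (((2 * Real.pi) ^ (-(finrank ℝ E : ℝ) / 2) : ℝ) : ℂ) *
          Complex.exp (-(1 / 2) * ‖x‖ ^ 2 + Complex.I * ⟪t, x⟫) := by
      intro x
      rw [ENNReal.toReal_ofReal (gd_pos x).le, gd, Complex.real_smul, real_inner_comm x t]
      push_cast
      rw [mul_assoc, ← Complex.exp_add]
      congr 2
      ring
    simp_rw [e1]
    rw [integral_const_mul, h]
    have e2 : (((2 * Real.pi) ^ (-(finrank ℝ E : ℝ) / 2) : ℝ) : ℂ) *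
        ((Real.pi : ℂ) / (1 / 2)) ^ ((finrank ℝ E : ℂ) / 2) = 1 := by
      have e3 : (Real.pi : ℂ) / (1 / 2) = ((2 * Real.pi : ℝ) : ℂ) := by push_cast; ring
      have e4 : ((finrank ℝ E : ℂ) / 2) = (((finrank ℝ E : ℝ) / 2 : ℝ) : ℂ) := by push_cast; ring
      rw [e3, e4, ← Complex.ofReal_cpow hpi.le, ← Complex.ofReal_mul, ← Real.rpow_add hpi]
      rw [show -(finrank ℝ E : ℝ) / 2 + (finrank ℝ E : ℝ) / 2 = 0 by ring, Real.rpow_zero]
      simp
    rw [← mul_assoc, e2, one_mul]
    congr 1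
    rw [Complex.I_sq]
    ring
  · exact (gd_cont.measurable.ennreal_ofReal)
  · exact Filter.Eventually.of_forall fun x => ENNReal.ofReal_lt_top

theorem std_real {K : Set E} (hK : MeasurableSet K) :
    (stdGaussian E).real K = ∫ x in K, gd x := by
  rw [Measure.real, std_density, withDensity_apply _ hK,
    ← ofReal_integral_eq_lintegral_ofReal gd_int.integrableOn
      (Filter.Eventually.of_forall fun x => (gd_pos x).le),
    ENNReal.toReal_ofReal (integral_nonneg fun x => (gd_pos x).le)]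

theorem gd_shift (x a : E) : Real.exp (-‖a‖ ^ 2 / 2) * gd x ≤ (gd (x + a) + gd (x - a)) / 2 := by
  have e1 : ‖x + a‖ ^ 2 = ‖x‖ ^ 2 + 2 * ⟪x, a⟫ + ‖a‖ ^ 2 := norm_add_sq_real x a
  have e2 : ‖x - a‖ ^ 2 = ‖x‖ ^ 2 - 2 * ⟪x, a⟫ + ‖a‖ ^ 2 := norm_sub_sq_real x a
  have hc : (0 : ℝ) < (2 * Real.pi) ^ (-(finrank ℝ E : ℝ) / 2) := by
    have : (0 : ℝ) < 2 * Real.pi := by positivity
    positivity
  unfold gd
  rw [e1, e2]
  have h1 : Real.exp (-(‖x‖ ^ 2 + 2 * ⟪x, a⟫ + ‖a‖ ^ 2) / 2) =
      Real.exp (-‖a‖ ^ 2 / 2) * Real.exp (-‖x‖ ^ 2 / 2) * Real.exp (-⟪x, a⟫) := by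
    rw [← Real.exp_add, ← Real.exp_add]; congr 1; ring
  have h2 : Real.exp (-(‖x‖ ^ 2 - 2 * ⟪x, a⟫ + ‖a‖ ^ 2) / 2) =
      Real.exp (-‖a‖ ^ 2 / 2) * Real.exp (-‖x‖ ^ 2 / 2) * Real.exp ⟪x, a⟫ := by
    rw [← Real.exp_add, ← Real.exp_add]; congr 1; ring
  rw [h1, h2]
  have h3 : 1 ≤ (Real.exp (-⟪x, a⟫) + Real.exp ⟪x, a⟫) / 2 := by
    have := Real.one_le_cosh ⟪x, a⟫
    rw [Real.cosh_eq] at this
    linarith
  have h4 : 0 ≤ (2 * Real.pi) ^ (-(finrank ℝ E : ℝ) / 2) *
      (Real.exp (-‖a‖ ^ 2 / 2) * Real.exp (-‖x‖ ^ 2 / 2)) := by positivity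
  nlinarith [mul_le_mul_of_nonneg_left h3 h4]

/-- shifting a symmetric set costs at most `exp (‖a‖² / 2)` -/
theorem shift_ge {K : Set E} (hK : MeasurableSet K) (hs : ∀ x ∈ K, -x ∈ K) (a : E) :
    Real.exp (-‖a‖ ^ 2 / 2) * (stdGaussian E).real K ≤
      (stdGaussian E).real {x | x - a ∈ K} := by
  have hK' : MeasurableSet {x : E | x - a ∈ K} := measurable_sub_const a hK
  rw [std_real hK, std_real hK']
  have e1 : ∫ x in {x | x - a ∈ K}, gd x = ∫ x in K, gd (x + a) := by
    rw [← integral_indicator hK', ← integral_indicator hK,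
      ← integral_sub_right_eq_self (fun x => K.indicator (fun x => gd (x + a)) x) a]
    refine integral_congr_ae (Filter.Eventually.of_forall fun x => ?_)
    by_cases hx : x - a ∈ K
    · have hx' : x ∈ {x : E | x - a ∈ K} := hx
      simp [indicator_of_mem hx', indicator_of_mem hx]
    · have hx' : x ∉ {x : E | x - a ∈ K} := hx
      simp [indicator_of_notMem hx', indicator_of_notMem hx]
  have e2 : ∫ x in K, gd (x + a) = ∫ x in K, gd (x - a) := by
    rw [← integral_indicator hK, ← integral_indicator hK,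
      ← integral_neg_eq_self (fun x => K.indicator (fun x => gd (x + a)) x)]
    refine integral_congr_ae (Filter.Eventually.of_forall fun x => ?_)
    have e3 : gd (-x + a) = gd (x - a) := by
      unfold gd; rw [show -x + a = -(x - a) by abel, norm_neg]
    by_cases hx : x ∈ K
    · simp [indicator_of_mem hx, indicator_of_mem (hs x hx), e3]
    · have hx' : -x ∉ K := fun h => hx (by simpa using hs _ h)
      simp [indicator_of_notMem hx, indicator_of_notMem hx']
  have i1 : Integrable (fun x : E => gd (x + a)) volume := gd_int.comp_add_right a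
  have i2 : Integrable (fun x : E => gd (x - a)) volume := gd_int.comp_sub_right a
  have h1 : ∫ x in K, Real.exp (-‖a‖ ^ 2 / 2) * gd x ≤
      ∫ x in K, (gd (x + a) + gd (x - a)) / 2 :=
    integral_mono (gd_int.integrableOn.const_mul _) ((i1.add i2).div_const 2).integrableOn
      (fun x => gd_shift x a)
  rw [integral_const_mul, integral_div, integral_add i1.integrableOn i2.integrableOn, ← e2] at h1
  rw [e1]
  linarith

end density

section semi

variable {E : Type*} [NormedAddCommGroup E] [InnerProductSpace ℝ E] [FiniteDimensional ℝ E]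

theorem semi_bound (P : Seminorm ℝ E) : ∃ C, 0 ≤ C ∧ ∀ x, P x ≤ C * ‖x‖ := by
  let b := stdOrthonormalBasis ℝ E
  refine ⟨∑ i, P (b i), Finset.sum_nonneg fun i _ => apply_nonneg P _, fun x => ?_⟩
  have h1 : P x = P (∑ i, b.repr x i • b i) := by rw [b.sum_repr x]
  rw [h1, Finset.sum_mul]
  refine (Finset.le_sum_of_subadditive P (map_zero P).le (map_add_le_add P) _ _).trans
    (Finset.sum_le_sum fun i _ => ?_)
  rw [map_smul_eq_mul, mul_comm]
  refine mul_le_mul_of_nonneg_left ?_ (apply_nonneg P _)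
  rw [b.repr_apply_apply]
  have := abs_real_inner_le_norm (b i) x
  rwa [b.norm_eq_one, one_mul] at this

theorem semi_cont (P : Seminorm ℝ E) : Continuous P := by
  obtain ⟨C, hC, h⟩ := semi_bound P
  have : LipschitzWith ⟨C, hC⟩ P := by
    refine LipschitzWith.of_dist_le_mul fun x y => ?_
    rw [Real.dist_eq, dist_eq_norm]
    refine (abs_sub_map_le_sub P x y).trans (h _)
  exact this.continuous

end semi

section ell

variable {E : Type*} [NormedAddCommGroup E] [InnerProductSpace ℝ E] [FiniteDimensional ℝ E]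
  [MeasurableSpace E] [BorelSpace E]

/-- the `l`-norm of a seminorm: `(E P(g)²)^(1/2)` -/
noncomputable def ellp (P : Seminorm ℝ E) : ℝ := Real.sqrt (∫ x, P x ^ 2 ∂stdGaussian E)

theorem semi_sq_int (P : Seminorm ℝ E) : Integrable (fun x => P x ^ 2) (stdGaussian E) := by
  obtain ⟨C, hC, h⟩ := semi_bound P
  have h2 : MemLp (id : E → E) 2 (stdGaussian E) := IsGaussian.memLp_two_id
  have h3 : Integrable (fun x : E => ‖x‖ ^ 2) (stdGaussian E) := by
    simpa using h2.integrable_norm_pow (by norm_num)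
  refine (h3.const_mul (C ^ 2)).mono' ((semi_cont P).pow 2).aestronglyMeasurable
    (Filter.Eventually.of_forall fun x => ?_)
  rw [Real.norm_eq_abs, abs_of_nonneg (sq_nonneg _), ← mul_pow]
  exact pow_le_pow_left₀ (apply_nonneg P x) (h x) 2

theorem ellp_nonneg (P : Seminorm ℝ E) : 0 ≤ ellp P := Real.sqrt_nonneg _

theorem ellp_sq (P : Seminorm ℝ E) : ellp P ^ 2 = ∫ x, P x ^ 2 ∂stdGaussian E :=
  Real.sq_sqrt (integral_nonneg fun _ => sq_nonneg _)

/-- Chebyshev -/
theorem cheb (P : Seminorm ℝ E) {r : ℝ} (hr : 0 < r) :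
    1 - ellp P ^ 2 / r ^ 2 ≤ (stdGaussian E).real {x | P x ≤ r} := by
  have h1 := mul_meas_ge_le_integral_of_nonneg (μ := stdGaussian E) (f := fun x => P x ^ 2)
    (Filter.Eventually.of_forall fun x => sq_nonneg _) (semi_sq_int P) (r ^ 2)
  rw [← ellp_sq] at h1
  have hm : MeasurableSet {x : E | P x ≤ r} := measurableSet_le (semi_cont P).measurable
    measurable_const
  have h2 : (stdGaussian E).real {x | P x ≤ r}ᶜ ≤ (stdGaussian E).real {x | r ^ 2 ≤ P x ^ 2} := by
    refine measureReal_mono fun x hx => ?_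
    have hx' : r < P x := not_le.1 hx
    exact pow_le_pow_left₀ hr.le hx'.le 2
  have h3 := probReal_compl_eq_one_sub (μ := stdGaussian E) hm
  have hr2 : 0 < r ^ 2 := by positivity
  have h4 : (stdGaussian E).real {x | r ^ 2 ≤ P x ^ 2} ≤ ellp P ^ 2 / r ^ 2 := by
    rw [le_div_iff₀ hr2, mul_comm]; exact h1
  linarith

end ell

end Pool.Agent.Work.MP_c13439_pq_h57
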