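import Pool.Agent.Work.MP_c13439_pq_helper57.Vol

/-! # Lemma L (helper57) -/

set_option autoImplicit false

open MeasureTheory ProbabilityTheory Set Module Filter Topology
open scoped RealInnerProductSpace ENNReal NNReal

namespace Pool.Agent.Work.MP_c13439_pq_h57

open Pool.PQ

variable {N : ℕ}

/-- the embedding `ℝ^k → ℝ^N` given by an orthonormal family -/
noncomputable def emb {k : ℕ} (v : Fin k → Eu N) : Eu k →L[ℝ] Eu N :=
  ∑ i, (EuclideanSpace.proj i : Eu k →L[ℝ] ℝ).smulRight (v i)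

theorem emb_apply {k : ℕ} (v : Fin k → Eu N) (x : Eu k) : emb v x = ∑ i, x i • v i := by
  unfold emb
  rw [sum_apply]
  rfl

theorem emb_adj {k : ℕ} {v : Fin k → Eu N} (hv : Orthonormal ℝ v) (x : Eu k) :
    ContinuousLinearMap.adjoint (emb v) (emb v x) = x := by
  refine ext_inner_right ℝ fun y => ?_
  rw [ContinuousLinearMap.adjoint_inner_left, emb_apply, emb_apply, hv.inner_sum]
  rw [PiLp.inner_apply]
  refine Finset.sum_congr rfl fun i _ => ?_
  simp [mul_comm]

theorem emb_single {k : ℕ} (v : Fin k → Eu N) (i : Fin k) :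
    emb v (EuclideanSpace.basisFun (Fin k) ℝ i) = v i := by
  classical
  rw [emb_apply]
  have : ∀ j, (EuclideanSpace.basisFun (Fin k) ℝ i : Eu k) j = if j = i then 1 else 0 := by
    intro j
    simp [EuclideanSpace.basisFun_apply]
  simp_rw [this]
  simp

/-- determinant of a diagonal operator -/
theorem det_diag {k : ℕ} (D : Eu k →L[ℝ] Eu k) (d : Fin k → ℝ)
    (h : ∀ i, D (EuclideanSpace.basisFun (Fin k) ℝ i) =
      d i • EuclideanSpace.basisFun (Fin k) ℝ i) :
    LinearMap.det D.toLinearMap = ∏ i, d i := by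
  classical
  set b := (EuclideanSpace.basisFun (Fin k) ℝ).toBasis with hb
  have h1 : D.toLinearMap = Matrix.toLin b b (Matrix.diagonal d) := by
    refine b.ext fun i => ?_
    rw [Matrix.toLin_self]
    have h2 : ∀ j, Matrix.diagonal d j i • b j = if j = i then d i • b i else 0 := by
      intro j
      rcases eq_or_ne j i with rfl | hji
      · simp
      · simp [hji]
    simp_rw [h2]
    rw [Finset.sum_ite_eq' Finset.univ i, if_pos (Finset.mem_univ i)]
    have h3 : b i = EuclideanSpace.basisFun (Fin k) ℝ i := by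
      rw [hb, OrthonormalBasis.coe_toBasis]
    rw [h3]
    exact h i
  rw [h1, LinearMap.det_toLin, Matrix.det_diagonal]

theorem ent_set_nonempty (Z Z' : DN N) (k : ℕ) :
    {ε : ℝ | 0 < ε ∧ ∃ w : Fin (2 ^ k) → Eu N, ∀ x, Z.p x ≤ 1 → ∃ i, Z'.p (x - w i) ≤ ε}.Nonempty := by
  obtain ⟨δ, hδ, h1⟩ := semi_lower Z.p (fun x h => Z.eq_zero h)
  obtain ⟨C, hC, h2⟩ := semi_upper Z'.p
  refine ⟨C / δ, by positivity, fun _ => 0, fun x hx => ⟨⟨0, Nat.two_pow_pos k⟩, ?_⟩⟩
  rw [sub_zero]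
  have h3 : ‖x‖ ≤ 1 / δ := by
    rw [le_div_iff₀ hδ, mul_comm]; exact (h1 x).trans hx
  calc Z'.p x ≤ C * ‖x‖ := h2 x
    _ ≤ C * (1 / δ) := mul_le_mul_of_nonneg_left h3 hC.le
    _ = C / δ := by ring

/-- the estimate of one eigenvalue -/
theorem eig_bound {Z Z' : DN N} {K lam : ℝ} (hK : 0 ≤ K) (hKc : KConv K Z') (hlam : 0 < lam)
    {Φ V R : Op N} (hΦ : StarLe Z'.p Φ 1) (hV : ell Z.p V ≤ 1) (hΦV : Φ * V = lam • (R * R))
    {k : ℕ} (hk : 1 ≤ k) {v : Fin k → Eu N} (hv : Orthonormal ℝ v) {ρ : Fin k → ℝ} {t : ℝ}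
    (ht : 0 ≤ t) (hρ : ∀ i, t ≤ ρ i) (hR : ∀ i, R (v i) = ρ i • v i) :
    lam * t ^ 2 ≤ 2048 * K / k * ent Z.p Z'.p k := by
  classical
  have hk0 : (0 : ℝ) < k := by exact_mod_cast hk
  have hsk : 0 < Real.sqrt k := Real.sqrt_pos.2 hk0
  set J := emb v with hJ
  set Jt := ContinuousLinearMap.adjoint J with hJt
  set D : Eu k →L[ℝ] Eu k := Jt ∘L (Φ * V) ∘L J with hD
  have hDe : ∀ i, D (EuclideanSpace.basisFun (Fin k) ℝ i) =
      (lam * ρ i ^ 2) • EuclideanSpace.basisFun (Fin k) ℝ i := by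
    intro i
    show Jt ((Φ * V) (J (EuclideanSpace.basisFun (Fin k) ℝ i))) = _
    have e1 : (Φ * V) (v i) = (lam * ρ i ^ 2) • v i := by
      rw [hΦV]
      show lam • R (R (v i)) = _
      rw [hR, map_smul, hR, smul_smul, smul_smul]
      congr 1; ring
    rw [hJ, emb_single, e1, map_smul]
    congr 1
    have e2 := emb_adj hv (EuclideanSpace.basisFun (Fin k) ℝ i)
    rw [emb_single] at e2
    exact e2
  have hdet : LinearMap.det D.toLinearMap = ∏ i, (lam * ρ i ^ 2) := det_diag D _ hDe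
  have hlow : (lam * t ^ 2) ^ k ≤ |LinearMap.det D.toLinearMap| := by
    rw [hdet, abs_of_nonneg (Finset.prod_nonneg fun i _ => by positivity)]
    calc (lam * t ^ 2) ^ k = ∏ _i : Fin k, (lam * t ^ 2) := by simp
      _ ≤ ∏ i : Fin k, (lam * ρ i ^ 2) := by
          refine Finset.prod_le_prod (fun i _ => by positivity) fun i _ => ?_
          exact mul_le_mul_of_nonneg_left (pow_le_pow_left₀ ht (hρ i) 2) hlam.le
  -- the seminorms
  have hQ : ellp ((Z.p.comp V.toLinearMap).comp J.toLinearMap) ≤ 1 :=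
    (ellp_comp_iso J (emb_adj hv) (Z.p.comp V.toLinearMap)).trans hV
  set P : Seminorm ℝ (Eu k) :=
    (Z'.q.comp (ContinuousLinearMap.adjoint Φ).toLinearMap).comp J.toLinearMap with hP
  have hPl : ellp P ≤ K := by
    refine (ellp_comp_iso J (emb_adj hv)
      (Z'.q.comp (ContinuousLinearMap.adjoint Φ).toLinearMap)).trans ?_
    have := hKc Φ 1 zero_le_one hΦ
    rw [mul_one] at this
    exact this
  obtain ⟨s, hs, hs'⟩ := sudakov P hk
  have hr0 : 64 * ellp P / Real.sqrt k ≤ 64 * K / Real.sqrt k := by gcongr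
  -- for every admissible `e`
  have main : ∀ e : ℝ, e ∈ {ε : ℝ | 0 < ε ∧ ∃ w : Fin (2 ^ k) → Eu N, ∀ x, Z.p x ≤ 1 →
      ∃ i, Z'.p (x - w i) ≤ ε} → lam * t ^ 2 ≤ 2048 * K / k * e := by
    rintro e ⟨he, w, hw⟩
    have hcov : ∃ s' : Finset (Eu k), s'.card ≤ 2 ^ k * 2 ^ k ∧
        ∀ h, ((Z.p.comp V.toLinearMap).comp J.toLinearMap) h ≤ 2 →
          ∃ c ∈ s', ‖D h - c‖ ≤ 2 * e * (64 * K / Real.sqrt k) := by
      refine ⟨(Finset.univ ×ˢ s).image
        (fun z : Fin (2 ^ k) × Eu k => (2 : ℝ) • Jt (Φ (w z.1)) + (2 * e) • z.2), ?_, ?_⟩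
      · refine Finset.card_image_le.trans ?_
        rw [Finset.card_product, Finset.card_univ, Fintype.card_fin]
        exact Nat.mul_le_mul le_rfl hs
      · intro h hh
        have hh' : Z.p (V (J h)) ≤ 2 := hh
        have h1 : Z.p ((1 / 2 : ℝ) • V (J h)) ≤ 1 := by
          rw [map_smul_eq_mul, Real.norm_eq_abs, abs_of_pos (by norm_num)]
          linarith
        obtain ⟨i, hi⟩ := hw _ h1
        set z : Eu N := (1 / 2 : ℝ) • V (J h) - w i with hz
        have hy : e⁻¹ • Jt (Φ z) ∈ pol P := by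
          intro u
          rw [inner_smul_left, hJt, ContinuousLinearMap.adjoint_inner_left]
          simp only [conj_trivial]
          have h2 := Z'.le z (ContinuousLinearMap.adjoint Φ (J u))
          rw [ContinuousLinearMap.adjoint_inner_right] at h2
          have h3 : 0 ≤ Z'.q (ContinuousLinearMap.adjoint Φ (J u)) := apply_nonneg _ _
          have h4 : ⟪Φ z, J u⟫ ≤ e * Z'.q (ContinuousLinearMap.adjoint Φ (J u)) :=
            h2.trans (mul_le_mul_of_nonneg_right hi h3)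
          rw [inv_mul_le_iff₀ he]
          exact h4
        obtain ⟨c, hc, hc'⟩ := hs' _ hy
        refine ⟨(2 : ℝ) • Jt (Φ (w i)) + (2 * e) • c, Finset.mem_image.2
          ⟨(i, c), Finset.mk_mem_product (Finset.mem_univ i) hc, rfl⟩, ?_⟩
        have e1 : D h - ((2 : ℝ) • Jt (Φ (w i)) + (2 * e) • c) =
            (2 * e) • (e⁻¹ • Jt (Φ z) - c) := by
          have e2 : D h = Jt (Φ (V (J h))) := rfl
          have e3 : Jt (Φ z) = (1 / 2 : ℝ) • Jt (Φ (V (J h))) - Jt (Φ (w i)) := by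
            rw [hz, map_sub, map_smul, map_sub, map_smul]
          have e4 : (2 * e) • e⁻¹ • Jt (Φ z) = (2 : ℝ) • Jt (Φ z) := by
            rw [smul_smul]
            congr 1
            field_simp
          rw [smul_sub, e4, e3, e2, smul_sub, smul_smul]
          norm_num
          abel
        rw [e1, norm_smul, Real.norm_eq_abs, abs_of_pos (by positivity)]
        exact mul_le_mul_of_nonneg_left (hc'.trans hr0) (by positivity)
    have h1 := vol_compare hk D _ hQ (n := 2 ^ k * 2 ^ k)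
      (r := 2 * e * (64 * K / Real.sqrt k)) (by positivity) hcov
    have h2 := hlow.trans h1
    have hE : Real.sqrt (Real.exp 1) ≤ 2 := by
      rw [Real.sqrt_le_left (by norm_num)]
      have := Real.exp_one_lt_d9
      linarith
    have h3 : 4 / 3 * ((2 ^ k * 2 ^ k : ℕ) : ℝ) *
        (2 * e * (64 * K / Real.sqrt k) * Real.sqrt (Real.exp 1) / Real.sqrt k) ^ k ≤
        (2048 * K / k * e) ^ k := by
      have e1 : ((2 ^ k * 2 ^ k : ℕ) : ℝ) = 4 ^ k := by
        push_cast
        rw [← mul_pow]; norm_num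
      have e2 : (4 : ℝ) / 3 ≤ (4 / 3) ^ k := by
        calc (4 : ℝ) / 3 = (4 / 3) ^ 1 := by rw [pow_one]
          _ ≤ _ := pow_le_pow_right₀ (by norm_num) hk
      rw [e1]
      calc 4 / 3 * (4 : ℝ) ^ k *
          (2 * e * (64 * K / Real.sqrt k) * Real.sqrt (Real.exp 1) / Real.sqrt k) ^ k ≤
          (4 / 3) ^ k * (4 : ℝ) ^ k *
          (2 * e * (64 * K / Real.sqrt k) * Real.sqrt (Real.exp 1) / Real.sqrt k) ^ k := by
            gcongr
        _ = (4 / 3 * 4 *
          (2 * e * (64 * K / Real.sqrt k) * Real.sqrt (Real.exp 1) / Real.sqrt k)) ^ k := by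
            rw [mul_pow, mul_pow]
        _ ≤ _ := by
            refine pow_le_pow_left₀ (by positivity) ?_ k
            have e3 : 4 / 3 * 4 *
              (2 * e * (64 * K / Real.sqrt k) * Real.sqrt (Real.exp 1) / Real.sqrt k) =
              2048 / 3 * K * e * Real.sqrt (Real.exp 1) / (Real.sqrt k * Real.sqrt k) := by
              field_simp
              ring
            rw [e3, Real.mul_self_sqrt hk0.le]
            have e4 : 2048 / 3 * K * e * Real.sqrt (Real.exp 1) ≤ 2048 * K * e := by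
              have : 0 ≤ K * e := by positivity
              nlinarith
            calc 2048 / 3 * K * e * Real.sqrt (Real.exp 1) / k ≤ 2048 * K * e / k := by gcongr
              _ = 2048 * K / k * e := by ring
    have h4 := h2.trans h3
    by_contra hn
    push Not at hn
    have := pow_lt_pow_left₀ hn (by positivity) (by omega : k ≠ 0)
    linarith
  have hne := ent_set_nonempty Z Z' k
  rcases (by positivity : 0 ≤ 2048 * K / (k : ℝ)).eq_or_lt with h0 | h0
  · obtain ⟨e, he⟩ := hne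
    have := main e he
    rw [← h0, zero_mul] at this
    rw [← h0, zero_mul]
    exact this
  · rw [← div_le_iff₀' h0]
    exact le_csInf hne fun e he => (div_le_iff₀' h0).2 (main e he)

/-- **LEML** -/
theorem LEML : ∃ C : ℝ, 0 < C ∧ ∀ (N : ℕ), 1 ≤ N → ∀ (Z Z' : DN N) (K : ℝ), 0 ≤ K → KConv K Z' →
    ∃ S : Eu N ≃L[ℝ] Eu N, ell Z'.p (S.symm : Eu N →L[ℝ] Eu N) = 1 ∧
      StarLe Z.p (S : Eu N →L[ℝ] Eu N)
        (C * K * (∑ k ∈ Finset.Icc 1 N, Real.sqrt (ent Z.p Z'.p k / k)) ^ 2) := by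
  refine ⟨2048, by norm_num, fun N hN Z Z' K hK hKc => ?_⟩
  obtain ⟨A, B, lam, hAB, hB, hA, hlam, hmin⟩ := exists_min hN Z Z'
  obtain ⟨Φ, V, hΦ, hT, hV, hFO⟩ := first_order hAB hB hA hlam hmin
  have hBA : B * A = 1 := by
    have h1 : A.toLinearMap * B.toLinearMap = 1 := by
      ext1 x
      exact congrArg (fun f : Op N => f x) hAB
    have h2 := mul_eq_one_comm.1 h1
    ext1 x
    exact congrArg (fun f : Eu N →ₗ[ℝ] Eu N => f x) h2
  set R := Φ * B with hRdef
  have hV' : V = lam • (B * R) := by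
    rw [← mul_smul_op, hFO, ← mul_assoc, hBA, one_mul]
  have hΦV : Φ * V = lam • (R * R) := by
    rw [hV', mul_smul_op, ← mul_assoc]
  have hsym : R.toLinearMap.IsSymmetric := fun x y => R_symm hΦ hB hT x y
  have hfr : finrank ℝ (Eu N) = N := finrank_euclideanSpace_fin
  set b := hsym.eigenvectorBasis hfr with hb
  set ρ := hsym.eigenvalues hfr with hρ
  have hRb : ∀ i, R (b i) = ρ i • b i := fun i => hsym.apply_eigenvectorBasis hfr i
  have hanti : Antitone ρ := hsym.eigenvalues_antitone hfr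
  have hρin : ∀ i, ρ i = ⟪b i, R (b i)⟫ := by
    intro i
    rw [hRb, inner_smul_right, real_inner_self_eq_norm_sq, b.norm_eq_one]
    ring
  have hρ0 : ∀ i, 0 ≤ ρ i := fun i => by rw [hρin]; exact R_nonneg hΦ hB hT _
  have hsum : ∑ i, ρ i = 1 := by
    rw [← hT, trL_sum' b]
    exact Finset.sum_congr rfl fun i _ => hρin i
  -- the eigenvalue estimate
  have hbd : ∀ i : Fin N, lam * ρ i ^ 2 ≤
      2048 * K / ((i : ℕ) + 1 : ℕ) * ent Z.p Z'.p ((i : ℕ) + 1) := by
    intro i
    have hle : (i : ℕ) + 1 ≤ N := i.2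
    refine eig_bound hK hKc hlam hΦ hV hΦV (by omega)
      (v := fun j : Fin ((i : ℕ) + 1) => b (Fin.castLE hle j))
      (ρ := fun j => ρ (Fin.castLE hle j)) ?_ (hρ0 i) ?_ (fun j => hRb _)
    · exact b.orthonormal.comp _ (Fin.castLE_injective hle)
    · intro j
      refine hanti ?_
      rw [Fin.le_def]
      have := j.2
      simp only [Fin.val_castLE]
      omega
  have hent : ∀ k, 0 ≤ ent Z.p Z'.p k := fun k => Real.sInf_nonneg fun e he => he.1.le
  set Sg := ∑ k ∈ Finset.Icc 1 N, Real.sqrt (ent Z.p Z'.p k / k) with hSg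
  have hSg' : Sg = ∑ i : Fin N, Real.sqrt (ent Z.p Z'.p ((i : ℕ) + 1) / ((i : ℕ) + 1 : ℕ)) := by
    rw [hSg, Fin.sum_univ_eq_sum_range
      (fun i => Real.sqrt (ent Z.p Z'.p (i + 1) / ((i + 1 : ℕ) : ℝ))) N, ← Finset.sum_image
        (f := fun k : ℕ => Real.sqrt (ent Z.p Z'.p k / (k : ℝ))) (g := fun i => i + 1)
        (fun a _ b _ h => by simpa using h)]
    refine Finset.sum_congr ?_ fun _ _ => rfl
    ext k
    simp only [Finset.mem_Icc, Finset.mem_image, Finset.mem_range]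
    constructor
    · rintro ⟨h1, h2⟩
      exact ⟨k - 1, by omega, by omega⟩
    · rintro ⟨a, h1, rfl⟩
      omega
  have h1 : ∀ i : Fin N, Real.sqrt lam * ρ i ≤ Real.sqrt (2048 * K) *
      Real.sqrt (ent Z.p Z'.p ((i : ℕ) + 1) / ((i : ℕ) + 1 : ℕ)) := by
    intro i
    rw [← Real.sqrt_mul (by positivity)]
    refine Real.le_sqrt_of_sq_le ?_
    rw [mul_pow, Real.sq_sqrt hlam.le]
    refine (hbd i).trans (le_of_eq ?_)
    ring
  have h2 : Real.sqrt lam ≤ Real.sqrt (2048 * K) * Sg := by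
    calc Real.sqrt lam = ∑ i : Fin N, Real.sqrt lam * ρ i := by
          rw [← Finset.mul_sum, hsum, mul_one]
      _ ≤ ∑ i : Fin N, Real.sqrt (2048 * K) *
          Real.sqrt (ent Z.p Z'.p ((i : ℕ) + 1) / ((i : ℕ) + 1 : ℕ)) :=
          Finset.sum_le_sum fun i _ => h1 i
      _ = _ := by rw [← Finset.mul_sum, ← hSg']
  have h3 : lam ≤ 2048 * K * Sg ^ 2 := by
    have h4 := pow_le_pow_left₀ (Real.sqrt_nonneg lam) h2 2
    rwa [Real.sq_sqrt hlam.le, mul_pow, Real.sq_sqrt (by positivity)] at h4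
  refine ⟨ContinuousLinearEquiv.equivOfInverse A B
    (fun x => congrArg (fun f : Op N => f x) hBA) (fun x => congrArg (fun f : Op N => f x) hAB),
    hB, StarLe.mono' hA h3⟩

end Pool.Agent.Work.MP_c13439_pq_h57
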