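import Pool.Agent.Work.MP_c13439_pq_helper57.Sudakov
import Pool.Agent.Work.MP_c13439_pq.Defs

/-! # Blocks SUD1, SUD2: the Sudakov inequalities for entropy numbers (helper57) -/

set_option autoImplicit false

open MeasureTheory ProbabilityTheory Set Module
open scoped RealInnerProductSpace ENNReal NNReal

namespace Pool.Agent.Work.MP_c13439_pq_h57

open Pool.PQ

theorem Cv.fin {E : Type*} [AddCommGroup E] {K : Set E} {V : E → ℝ} {n : ℕ} {e : ℝ}
    (h : Cv K V n e) (hK : K.Nonempty) : ∃ w : Fin n → E, ∀ x ∈ K, ∃ i, V (x - w i) ≤ e := by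
  obtain ⟨s, hs, hs'⟩ := h
  obtain ⟨x0, hx0⟩ := hK
  obtain ⟨y0, hy0, _⟩ := hs' x0 hx0
  have hne : Nonempty s := ⟨⟨y0, hy0⟩⟩
  obtain ⟨f⟩ : Nonempty (s ↪ Fin n) :=
    Function.Embedding.nonempty_of_card_le (by simpa using hs)
  refine ⟨fun i => ((Function.invFun (⇑f) i : s) : E), fun x hx => ?_⟩
  obtain ⟨y, hy, hxy⟩ := hs' x hx
  refine ⟨f ⟨y, hy⟩, ?_⟩
  show V (x - ((Function.invFun (⇑f) (f ⟨y, hy⟩) : s) : E)) ≤ e
  rw [Function.leftInverse_invFun f.injective]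
  exact hxy

variable {N : ℕ}

theorem ent_le {U V : Seminorm ℝ (Eu N)} {k : ℕ} {e : ℝ} (he : 0 ≤ e)
    (h : Cv {x | U x ≤ 1} V (2 ^ k) e) : ent U V k ≤ e := by
  refine le_of_forall_gt_imp_ge_of_dense fun c hc => ?_
  obtain ⟨w, hw⟩ := h.fin ⟨0, by simp⟩
  refine csInf_le ⟨0, fun c hc => hc.1.le⟩ ⟨he.trans_lt hc, w, fun x hx => ?_⟩
  obtain ⟨i, hi⟩ := hw x hx
  exact ⟨i, hi.trans hc.le⟩

theorem ellp_eq_ell (V : Seminorm ℝ (Eu N)) (B : Eu N →L[ℝ] Eu N) :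
    ellp (V.comp B.toLinearMap) = ell V B := rfl

/-- SUD1 (dual Sudakov) -/
theorem sud1 (S : Eu N ≃L[ℝ] Eu N) (H V : Seminorm ℝ (Eu N)) (hH : ∀ x, H x = ‖S x‖) {k : ℕ}
    (hk : 1 ≤ k) : ent H V k ≤ 4 * ell V (S.symm : Eu N →L[ℝ] Eu N) / Real.sqrt k := by
  classical
  have h0 : 0 ≤ ell V (S.symm : Eu N →L[ℝ] Eu N) := Real.sqrt_nonneg _
  refine ent_le (by positivity) ?_
  obtain ⟨s, hs, hs'⟩ := dual_sudakov
    (V.comp (S.symm : Eu N →L[ℝ] Eu N).toLinearMap) hk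
  refine ⟨s.image S.symm, Finset.card_image_le.trans hs, fun x hx => ?_⟩
  have hx' : ‖S x‖ ≤ 1 := by rw [← hH]; exact hx
  obtain ⟨y, hy, hxy⟩ := hs' (S x) (by simpa using hx')
  refine ⟨S.symm y, Finset.mem_image_of_mem _ hy, ?_⟩
  have e1 : (V.comp (S.symm : Eu N →L[ℝ] Eu N).toLinearMap) (S x - y) = V (x - S.symm y) := by
    show V (S.symm (S x - y)) = _
    rw [map_sub, S.symm_apply_apply]
  rw [e1] at hxy
  exact hxy

/-- SUD2 (Sudakov) -/
theorem sud2 (S : Eu N ≃L[ℝ] Eu N) (X : DN N) (H : Seminorm ℝ (Eu N)) (hH : ∀ x, H x = ‖S x‖)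
    {k : ℕ} (hk : 1 ≤ k) : ent X.p H k ≤
      64 * ell X.q (ContinuousLinearMap.adjoint (S : Eu N →L[ℝ] Eu N)) / Real.sqrt k := by
  classical
  have h0 : 0 ≤ ell X.q (ContinuousLinearMap.adjoint (S : Eu N →L[ℝ] Eu N)) :=
    Real.sqrt_nonneg _
  refine ent_le (by positivity) ?_
  obtain ⟨s, hs, hs'⟩ := sudakov
    (X.q.comp (ContinuousLinearMap.adjoint (S : Eu N →L[ℝ] Eu N)).toLinearMap) hk
  refine ⟨s.image S.symm, Finset.card_image_le.trans hs, fun x hx => ?_⟩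
  have hx' : S x ∈ pol (X.q.comp
      (ContinuousLinearMap.adjoint (S : Eu N →L[ℝ] Eu N)).toLinearMap) := by
    intro y
    show ⟪S x, y⟫ ≤ X.q (ContinuousLinearMap.adjoint (S : Eu N →L[ℝ] Eu N) y)
    have h1 := X.le x (ContinuousLinearMap.adjoint (S : Eu N →L[ℝ] Eu N) y)
    rw [ContinuousLinearMap.adjoint_inner_right] at h1
    refine h1.trans ?_
    have h2 : X.p x ≤ 1 := hx
    have h3 := apply_nonneg X.q (ContinuousLinearMap.adjoint (S : Eu N →L[ℝ] Eu N) y)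
    nlinarith
  obtain ⟨y, hy, hxy⟩ := hs' (S x) hx'
  refine ⟨S.symm y, Finset.mem_image_of_mem _ hy, ?_⟩
  rw [hH, map_sub, S.apply_symm_apply]
  exact hxy

theorem sqrt_succ {k : ℕ} (hk : 1 ≤ k) : Real.sqrt (k + 1) ≤ 3 / 2 * Real.sqrt k := by
  have hk0 : (1 : ℝ) ≤ k := by exact_mod_cast hk
  rw [show (3 : ℝ) / 2 = Real.sqrt (9 / 4) by
    rw [show (9 : ℝ) / 4 = (3 / 2) ^ 2 by norm_num, Real.sqrt_sq (by norm_num)],
    ← Real.sqrt_mul (by norm_num)]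
  exact Real.sqrt_le_sqrt (by linarith)

theorem div_sqrt_succ {k : ℕ} (hk : 1 ≤ k) {c : ℝ} (hc : 0 ≤ c) :
    c / Real.sqrt k ≤ 3 / 2 * c / Real.sqrt (k + 1) := by
  have h1 : 0 < Real.sqrt k := Real.sqrt_pos.2 (by exact_mod_cast hk)
  have h2 : 0 < Real.sqrt (k + 1) := Real.sqrt_pos.2 (by positivity)
  rw [div_le_div_iff₀ h1 h2]
  nlinarith [sqrt_succ hk]

/-- SUD1 (dual Sudakov), all `k` -/
theorem SUD1 (S : Eu N ≃L[ℝ] Eu N) (H V : Seminorm ℝ (Eu N)) (hH : ∀ x, H x = ‖S x‖) (k : ℕ) :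
    ent H V k ≤ 6 * ell V (S.symm : Eu N →L[ℝ] Eu N) / Real.sqrt (k + 1) := by
  have h0 : 0 ≤ ell V (S.symm : Eu N →L[ℝ] Eu N) := Real.sqrt_nonneg _
  rcases Nat.eq_zero_or_pos k with rfl | hk
  · have h1 : ent H V 0 ≤ ell V (S.symm : Eu N →L[ℝ] Eu N) := by
      refine ent_le h0 ⟨{0}, by simp, fun x hx => ⟨0, by simp, ?_⟩⟩
      have hx' : ‖S x‖ ≤ 1 := by rw [← hH]; exact hx
      have h2 := le_ellp (V.comp (S.symm : Eu N →L[ℝ] Eu N).toLinearMap) (S x)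
      have e1 : (V.comp (S.symm : Eu N →L[ℝ] Eu N).toLinearMap) (S x) = V x := by
        show V (S.symm (S x)) = _
        rw [S.symm_apply_apply]
      rw [e1, ellp_eq_ell] at h2
      rw [sub_zero]
      exact h2.trans (mul_le_of_le_one_right h0 hx')
    refine h1.trans ?_
    simp
    linarith
  · exact (sud1 S H V hH hk).trans ((div_sqrt_succ hk (by positivity)).trans
      (le_of_eq (by ring)))

/-- SUD2 (Sudakov), all `k` -/
theorem SUD2 (S : Eu N ≃L[ℝ] Eu N) (X : DN N) (H : Seminorm ℝ (Eu N)) (hH : ∀ x, H x = ‖S x‖)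
    (k : ℕ) : ent X.p H k ≤
      96 * ell X.q (ContinuousLinearMap.adjoint (S : Eu N →L[ℝ] Eu N)) / Real.sqrt (k + 1) := by
  have h0 : 0 ≤ ell X.q (ContinuousLinearMap.adjoint (S : Eu N →L[ℝ] Eu N)) :=
    Real.sqrt_nonneg _
  rcases Nat.eq_zero_or_pos k with rfl | hk
  · have h1 : ent X.p H 0 ≤ ell X.q (ContinuousLinearMap.adjoint (S : Eu N →L[ℝ] Eu N)) := by
      refine ent_le h0 ⟨{0}, by simp, fun x hx => ⟨0, by simp, ?_⟩⟩
      have hx' : S x ∈ pol (X.q.comp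
          (ContinuousLinearMap.adjoint (S : Eu N →L[ℝ] Eu N)).toLinearMap) := by
        intro y
        show ⟪S x, y⟫ ≤ X.q (ContinuousLinearMap.adjoint (S : Eu N →L[ℝ] Eu N) y)
        have h1 := X.le x (ContinuousLinearMap.adjoint (S : Eu N →L[ℝ] Eu N) y)
        rw [ContinuousLinearMap.adjoint_inner_right] at h1
        refine h1.trans ?_
        have h2 : X.p x ≤ 1 := hx
        have h3 := apply_nonneg X.q (ContinuousLinearMap.adjoint (S : Eu N →L[ℝ] Eu N) y)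
        nlinarith
      have h2 := pol_norm _ hx'
      rw [ellp_eq_ell] at h2
      rw [sub_zero, hH]
      exact h2
    refine h1.trans ?_
    simp
    linarith
  · exact (sud2 S X H hH hk).trans ((div_sqrt_succ hk (by positivity)).trans
      (le_of_eq (by ring)))

end Pool.Agent.Work.MP_c13439_pq_h57
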