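import Pool.Agent.Work.MP_c13439_pq_helper57.Sud

/-! # The norm `ell p` on operators, the trace, the trace dual norm (helper57) -/

set_option autoImplicit false

open MeasureTheory ProbabilityTheory Set Module
open scoped RealInnerProductSpace ENNReal NNReal

namespace Pool.Agent.Work.MP_c13439_pq_h57

open Pool.PQ

variable {N : ℕ}

/-- operators on `ℝ^N` -/
abbrev Op (N : ℕ) := Eu N →L[ℝ] Eu N

/-! ### the norm `ell p` -/

theorem ell_nonneg (p : Seminorm ℝ (Eu N)) (B : Op N) : 0 ≤ ell p B := Real.sqrt_nonneg _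

theorem ell_sq (p : Seminorm ℝ (Eu N)) (B : Op N) : ell p B ^ 2 = ∫ x, p (B x) ^ 2 ∂gs N :=
  Real.sq_sqrt (integral_nonneg fun _ => sq_nonneg _)

theorem sq_int (p : Seminorm ℝ (Eu N)) (B : Op N) :
    Integrable (fun x => p (B x) ^ 2) (gs N) :=
  semi_sq_int (p.comp B.toLinearMap)

theorem mem_L2 (p : Seminorm ℝ (Eu N)) (B : Op N) : MemLp (fun x => p (B x)) 2 (gs N) := by
  refine (memLp_two_iff_integrable_sq ?_).2 (sq_int p B)
  exact ((semi_cont p).comp B.continuous).aestronglyMeasurable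

theorem cs_int (p : Seminorm ℝ (Eu N)) (B C : Op N) :
    ∫ x, p (B x) * p (C x) ∂gs N ≤ ell p B * ell p C := by
  have h := integral_mul_le_Lp_mul_Lq_of_nonneg (μ := gs N) (f := fun x => p (B x))
    (g := fun x => p (C x)) (p := 2) (q := 2) Real.HolderConjugate.two_two
    (Filter.Eventually.of_forall fun x => apply_nonneg p _)
    (Filter.Eventually.of_forall fun x => apply_nonneg p _)
    (by simpa using mem_L2 p B) (by simpa using mem_L2 p C)
  have e1 : ∀ B : Op N, (∫ x, p (B x) ^ (2 : ℝ) ∂gs N) ^ (1 / (2 : ℝ)) = ell p B := by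
    intro B
    rw [← Real.sqrt_eq_rpow]
    unfold ell
    congr 2
    funext x
    norm_num
  rw [e1, e1] at h
  exact h

theorem ell_add (p : Seminorm ℝ (Eu N)) (B C : Op N) : ell p (B + C) ≤ ell p B + ell p C := by
  refine Real.sqrt_le_iff.2 ⟨add_nonneg (ell_nonneg p B) (ell_nonneg p C), ?_⟩
  have i3 : Integrable (fun x => p (B x) * p (C x)) (gs N) := (mem_L2 p B).integrable_mul (mem_L2 p C)
  have h1 : ∫ x, p ((B + C) x) ^ 2 ∂gs N ≤
      ∫ x, (p (B x) ^ 2 + p (C x) ^ 2 + 2 * (p (B x) * p (C x))) ∂gs N := by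
    refine integral_mono (sq_int p (B + C)) (((sq_int p B).add (sq_int p C)).add
      (i3.const_mul 2)) fun x => ?_
    have h2 : p ((B + C) x) ≤ p (B x) + p (C x) := map_add_le_add p _ _
    have h3 := pow_le_pow_left₀ (apply_nonneg p _) h2 2
    refine h3.trans (le_of_eq (by ring))
  have h2 : ∫ x, (p (B x) ^ 2 + p (C x) ^ 2 + 2 * (p (B x) * p (C x))) ∂gs N =
      ell p B ^ 2 + ell p C ^ 2 + 2 * ∫ x, p (B x) * p (C x) ∂gs N := by
    have e1 := integral_add ((sq_int p B).add (sq_int p C)) (i3.const_mul 2)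
    have e2 := integral_add (sq_int p B) (sq_int p C)
    simp only [Pi.add_apply] at e1 e2
    rw [e1, e2, integral_const_mul, ell_sq, ell_sq]
  rw [h2] at h1
  nlinarith [cs_int p B C]

theorem ell_smul (p : Seminorm ℝ (Eu N)) (c : ℝ) (B : Op N) :
    ell p (c • B) = |c| * ell p B := by
  have h1 : ∀ x, p ((c • B) x) ^ 2 = c ^ 2 * p (B x) ^ 2 := by
    intro x
    show p (c • B x) ^ 2 = _
    rw [map_smul_eq_mul, mul_pow, Real.norm_eq_abs, sq_abs]
  unfold ell
  simp_rw [h1]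
  rw [integral_const_mul, Real.sqrt_mul (sq_nonneg c), Real.sqrt_sq_eq_abs]

/-- `ell p` as a seminorm -/
noncomputable def ellSem (p : Seminorm ℝ (Eu N)) : Seminorm ℝ (Op N) :=
  Seminorm.of (ell p) (ell_add p) (fun c B => by rw [ell_smul, Real.norm_eq_abs])

theorem le_ell (p : Seminorm ℝ (Eu N)) (B : Op N) (x : Eu N) : p (B x) ≤ ell p B * ‖x‖ :=
  le_ellp (p.comp B.toLinearMap) x

theorem ell_zero (p : Seminorm ℝ (Eu N)) : ell p 0 = 0 := map_zero (ellSem p)

theorem ell_neg (p : Seminorm ℝ (Eu N)) (B : Op N) : ell p (-B) = ell p B :=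
  map_neg_eq_map (ellSem p) B

theorem ell_eq_zero (X : DN N) {B : Op N} (h : ell X.p B = 0) : B = 0 := by
  ext1 x
  have h1 := le_ell X.p B x
  rw [h, zero_mul] at h1
  exact X.eq_zero (le_antisymm h1 (apply_nonneg X.p _))

/-! ### seminorms on finite dimensional spaces -/

section fd

variable {W : Type*} [NormedAddCommGroup W] [NormedSpace ℝ W] [FiniteDimensional ℝ W]

theorem semi_cont' (ν : Seminorm ℝ W) : Continuous ν := by
  have h := (Seminorm.convexOn ν).continuousOn_interior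
  rw [interior_univ] at h
  exact continuousOn_univ.1 h

theorem semi_lower (ν : Seminorm ℝ W) (h0 : ∀ x, ν x = 0 → x = 0) :
    ∃ δ : ℝ, 0 < δ ∧ ∀ x, δ * ‖x‖ ≤ ν x := by
  have hc : IsCompact (Metric.sphere (0 : W) 1) := isCompact_sphere 0 1
  rcases (Metric.sphere (0 : W) 1).eq_empty_or_nonempty with he | hne
  · refine ⟨1, one_pos, fun x => ?_⟩
    have : x = 0 := by
      by_contra hx
      have hx' : ‖x‖ ≠ 0 := norm_ne_zero_iff.2 hx
      have : ‖x‖⁻¹ • x ∈ Metric.sphere (0 : W) 1 := by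
        rw [mem_sphere_zero_iff_norm, norm_smul, norm_inv, norm_norm, inv_mul_cancel₀ hx']
      rw [he] at this
      exact this
    rw [this]; simp
  · obtain ⟨u, hu, hmin⟩ := hc.exists_isMinOn hne (semi_cont' ν).continuousOn
    have hu1 : ‖u‖ = 1 := mem_sphere_zero_iff_norm.1 hu
    have hpos : 0 < ν u := by
      refine lt_of_le_of_ne (apply_nonneg ν u) fun h => ?_
      have := h0 u h.symm
      rw [this, norm_zero] at hu1
      exact zero_ne_one hu1
    refine ⟨ν u, hpos, fun x => ?_⟩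
    rcases eq_or_ne x 0 with rfl | hx
    · simp
    have hx' : 0 < ‖x‖ := norm_pos_iff.2 hx
    have h1 : ‖x‖⁻¹ • x ∈ Metric.sphere (0 : W) 1 := by
      rw [mem_sphere_zero_iff_norm, norm_smul, norm_inv, norm_norm, inv_mul_cancel₀ hx'.ne']
    have h2 : ν u ≤ ν (‖x‖⁻¹ • x) := hmin h1
    rw [map_smul_eq_mul, norm_inv, norm_norm, inv_mul_eq_div, le_div_iff₀ hx'] at h2
    exact h2

theorem semi_upper (ν : Seminorm ℝ W) : ∃ C : ℝ, 0 < C ∧ ∀ x, ν x ≤ C * ‖x‖ := by
  have hc : IsCompact (Metric.closedBall (0 : W) 1) := isCompact_closedBall 0 1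
  obtain ⟨u, hu, hmax⟩ := hc.exists_isMaxOn ⟨0, by simp⟩ (semi_cont' ν).continuousOn
  refine ⟨ν u + 1, by have := apply_nonneg ν u; linarith, fun x => ?_⟩
  rcases eq_or_ne x 0 with rfl | hx
  · simp
  have hx' : 0 < ‖x‖ := norm_pos_iff.2 hx
  have h1 : ‖x‖⁻¹ • x ∈ Metric.closedBall (0 : W) 1 := by
    rw [mem_closedBall_zero_iff, norm_smul, norm_inv, norm_norm, inv_mul_cancel₀ hx'.ne']
  have h2 : ν (‖x‖⁻¹ • x) ≤ ν u := hmax h1
  rw [map_smul_eq_mul, norm_inv, norm_norm, inv_mul_eq_div, div_le_iff₀ hx'] at h2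
  nlinarith

theorem semi_compact (ν : Seminorm ℝ W) (h0 : ∀ x, ν x = 0 → x = 0) (c : ℝ) :
    IsCompact {x | ν x ≤ c} := by
  obtain ⟨δ, hδ, h⟩ := semi_lower ν h0
  refine (isCompact_closedBall (0 : W) (c / δ)).of_isClosed_subset
    (isClosed_le (semi_cont' ν) continuous_const) fun x hx => ?_
  rw [mem_closedBall_zero_iff, le_div_iff₀ hδ, mul_comm]
  exact (h x).trans hx

end fd

/-! ### the trace -/

/-- the trace as a linear functional on operators -/
noncomputable def trL (N : ℕ) : Op N →ₗ[ℝ] ℝ :=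
  (LinearMap.trace ℝ (Eu N)).comp (ContinuousLinearMap.coeLM ℝ)

theorem trL_apply (A : Op N) : trL N A = LinearMap.trace ℝ (Eu N) A.toLinearMap := rfl

theorem trL_cont : Continuous (trL N) := LinearMap.continuous_of_finiteDimensional _

theorem trL_comm (A B : Op N) : trL N (A ∘L B) = trL N (B ∘L A) := by
  rw [trL_apply, trL_apply]
  exact LinearMap.trace_mul_comm ℝ A.toLinearMap B.toLinearMap

theorem trL_sum (A : Op N) : trL N A =
    ∑ i, ⟪EuclideanSpace.basisFun (Fin N) ℝ i, A (EuclideanSpace.basisFun (Fin N) ℝ i)⟫ := by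
  rw [trL_apply, LinearMap.trace_eq_sum_inner _ (EuclideanSpace.basisFun (Fin N) ℝ)]
  rfl

theorem trL_sum' {ι : Type*} [Fintype ι] (b : OrthonormalBasis ι ℝ (Eu N)) (A : Op N) :
    trL N A = ∑ i, ⟪b i, A (b i)⟫ := by
  rw [trL_apply, LinearMap.trace_eq_sum_inner _ b]
  rfl

theorem starLe_iff (p : Seminorm ℝ (Eu N)) (A : Op N) (c : ℝ) :
    StarLe p A c ↔ ∀ V : Op N, trL N (A ∘L V) ≤ c * ell p V := Iff.rfl

/-- `‖A‖² ≤ tr (A Aᵗ)` -/
theorem norm_sq_le_tr (A : Op N) :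
    ‖A‖ ^ 2 ≤ trL N (A ∘L ContinuousLinearMap.adjoint A) := by
  set b := EuclideanSpace.basisFun (Fin N) ℝ
  set At := ContinuousLinearMap.adjoint A
  have h1 : trL N (A ∘L At) = ∑ i, ‖At (b i)‖ ^ 2 := by
    rw [trL_sum]
    refine Finset.sum_congr rfl fun i _ => ?_
    show ⟪b i, A (At (b i))⟫ = _
    rw [← ContinuousLinearMap.adjoint_inner_left, real_inner_self_eq_norm_sq]
  rw [h1]
  have h0 : 0 ≤ ∑ i, ‖At (b i)‖ ^ 2 := Finset.sum_nonneg fun i _ => sq_nonneg _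
  have h2 : ‖At‖ ≤ Real.sqrt (∑ i, ‖At (b i)‖ ^ 2) := by
    refine ContinuousLinearMap.opNorm_le_bound _ (Real.sqrt_nonneg _) fun x => ?_
    have h3 : At x = ∑ i, b.repr x i • At (b i) := by
      conv_lhs => rw [← b.sum_repr x]
      rw [map_sum]
      simp_rw [map_smul]
    rw [h3]
    refine (norm_sum_le _ _).trans ?_
    simp_rw [norm_smul]
    refine (Real.sum_mul_le_sqrt_mul_sqrt _ _ _).trans ?_
    rw [mul_comm]
    refine mul_le_mul_of_nonneg_left ?_ (Real.sqrt_nonneg _)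
    have h4 : ∑ i, ‖b.repr x i‖ ^ 2 = ‖x‖ ^ 2 := by
      rw [← b.repr.norm_map x, EuclideanSpace.norm_sq_eq]
    rw [h4, Real.sqrt_sq (norm_nonneg x)]
  have h3 : ‖At‖ = ‖A‖ := ContinuousLinearMap.adjoint.norm_map A
  rw [h3] at h2
  calc ‖A‖ ^ 2 ≤ Real.sqrt (∑ i, ‖At (b i)‖ ^ 2) ^ 2 :=
        pow_le_pow_left₀ (norm_nonneg A) h2 2
    _ = ∑ i, ‖At (b i)‖ ^ 2 := Real.sq_sqrt h0

end Pool.Agent.Work.MP_c13439_pq_h57
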