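import Pool.Agent.Work.MP_c13439_pq_helper57.Gauss

/-! # Images of the standard Gaussian measure, covariance, ideal property (helper57) -/

set_option autoImplicit false

open MeasureTheory ProbabilityTheory Set Module
open scoped RealInnerProductSpace ENNReal NNReal

namespace Pool.Agent.Work.MP_c13439_pq_h57

variable {E F G : Type*} [NormedAddCommGroup E] [InnerProductSpace ℝ E] [FiniteDimensional ℝ E]
  [MeasurableSpace E] [BorelSpace E]
  [NormedAddCommGroup F] [InnerProductSpace ℝ F] [FiniteDimensional ℝ F]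
  [MeasurableSpace F] [BorelSpace F]
  [NormedAddCommGroup G] [InnerProductSpace ℝ G] [FiniteDimensional ℝ G]
  [MeasurableSpace G] [BorelSpace G]

/-- image under a coisometry -/
theorem map_std (A : E →L[ℝ] F) (h : ∀ t, ‖A.adjoint t‖ = ‖t‖) :
    (stdGaussian E).map A = stdGaussian F := by
  have : IsProbabilityMeasure ((stdGaussian E).map A) :=
    Measure.isProbabilityMeasure_map A.continuous.aemeasurable
  apply Measure.ext_of_charFun
  ext t
  rw [charFun_stdGaussian, ← h t, ← charFun_stdGaussian, charFun_apply, charFun_apply,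
    integral_map A.continuous.aemeasurable (by fun_prop)]
  simp only [ContinuousLinearMap.adjoint_inner_right]

/-- `A x + B y` is standard Gaussian if `A Aᵗ + B Bᵗ = 1` -/
theorem map_std_add (A : E →L[ℝ] G) (B : F →L[ℝ] G)
    (h : ∀ t, ‖A.adjoint t‖ ^ 2 + ‖B.adjoint t‖ ^ 2 = ‖t‖ ^ 2) :
    ((stdGaussian E).prod (stdGaussian F)).map (fun z => A z.1 + B z.2) = stdGaussian G := by
  have hm : Measurable (fun z : E × F => A z.1 + B z.2) := by fun_prop
  have : IsProbabilityMeasure
      (((stdGaussian E).prod (stdGaussian F)).map (fun z => A z.1 + B z.2)) :=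
    Measure.isProbabilityMeasure_map hm.aemeasurable
  apply Measure.ext_of_charFun
  ext t
  rw [charFun_stdGaussian, charFun_apply, integral_map hm.aemeasurable (by fun_prop)]
  have e1 : ∀ z : E × F, Complex.exp (⟪A z.1 + B z.2, t⟫ * Complex.I) =
      Complex.exp (⟪z.1, A.adjoint t⟫ * Complex.I) *
        Complex.exp (⟪z.2, B.adjoint t⟫ * Complex.I) := by
    intro z
    rw [← Complex.exp_add, inner_add_left, ContinuousLinearMap.adjoint_inner_right,
      ContinuousLinearMap.adjoint_inner_right]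
    congr 1
    push_cast
    ring
  simp_rw [e1]
  rw [integral_prod_mul (fun x : E => Complex.exp (⟪x, A.adjoint t⟫ * Complex.I))
    (fun y : F => Complex.exp (⟪y, B.adjoint t⟫ * Complex.I)), ← charFun_apply, ← charFun_apply,
    charFun_stdGaussian, charFun_stdGaussian, ← Complex.exp_add]
  congr 1
  have := h t
  have h2 : ((‖A.adjoint t‖ ^ 2 + ‖B.adjoint t‖ ^ 2 : ℝ) : ℂ) = ((‖t‖ ^ 2 : ℝ) : ℂ) := by
    rw [this]
  push_cast at h2
  rw [← h2]
  ring

theorem int_inner_mul (u v : E) : ∫ x, ⟪u, x⟫ * ⟪v, x⟫ ∂stdGaussian E = ⟪u, v⟫ := by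
  have h1 : covarianceBilin (stdGaussian E) u v = ⟪u, v⟫ := by
    rw [covarianceBilin_stdGaussian]; rfl
  rw [covarianceBilin_apply IsGaussian.memLp_two_id] at h1
  simpa using h1

theorem int_inner_sq (u : E) : ∫ x, ⟪u, x⟫ ^ 2 ∂stdGaussian E = ‖u‖ ^ 2 := by
  have := int_inner_mul u u
  rw [real_inner_self_eq_norm_sq] at this
  rw [← this]
  congr 1; funext x; ring

theorem inner_sq_int (u : E) : Integrable (fun x => ⟪u, x⟫ ^ 2) (stdGaussian E) := by
  have h2 : MemLp (id : E → E) 2 (stdGaussian E) := IsGaussian.memLp_two_id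
  have h3 : Integrable (fun x : E => ‖x‖ ^ 2) (stdGaussian E) := by
    simpa using h2.integrable_norm_pow (by norm_num)
  refine (h3.const_mul (‖u‖ ^ 2)).mono' (by fun_prop) (Filter.Eventually.of_forall fun x => ?_)
  rw [Real.norm_eq_abs, abs_of_nonneg (sq_nonneg _), ← mul_pow, ← sq_abs]
  exact pow_le_pow_left₀ (abs_nonneg _) (abs_real_inner_le_norm u x) 2

/-- ideal property for isometric embeddings -/
theorem ellp_comp_iso (J : F →L[ℝ] E) (hJ : ∀ x, J.adjoint (J x) = x) (P : Seminorm ℝ E) :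
    ellp (P.comp J.toLinearMap) ≤ ellp P := by
  have hn : ∀ x, ‖J x‖ = ‖x‖ := by
    intro x
    have h1 : ⟪J x, J x⟫ = ⟪x, x⟫ := by
      rw [← ContinuousLinearMap.adjoint_inner_right, hJ]
    rw [real_inner_self_eq_norm_sq, real_inner_self_eq_norm_sq] at h1
    exact (pow_left_inj₀ (norm_nonneg _) (norm_nonneg _) two_ne_zero).1 h1
  -- the law of `Jᵗ g`
  have h1 : (stdGaussian E).map J.adjoint = stdGaussian F :=
    map_std J.adjoint (fun t => by rw [ContinuousLinearMap.adjoint_adjoint]; exact hn t)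
  -- the reflection
  let R : E →L[ℝ] E := (2 : ℝ) • (J ∘L J.adjoint) - ContinuousLinearMap.id ℝ E
  have hR : ∀ x, R x = (2 : ℝ) • J (J.adjoint x) - x := fun x => rfl
  have hRn : ∀ t, ‖R.adjoint t‖ = ‖t‖ := by
    intro t
    have e0 : R.adjoint t = (2 : ℝ) • J (J.adjoint t) - t := by
      refine ext_inner_right ℝ fun v => ?_
      rw [ContinuousLinearMap.adjoint_inner_left, hR, inner_sub_right, inner_sub_left,
        inner_smul_right, inner_smul_left, ← ContinuousLinearMap.adjoint_inner_left J,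
        ← ContinuousLinearMap.adjoint_inner_right J]
      simp
    rw [e0]
    have e1 : ‖(2 : ℝ) • J (J.adjoint t) - t‖ ^ 2 = ‖t‖ ^ 2 := by
      rw [norm_sub_sq_real, norm_smul, inner_smul_left, hn, ← ContinuousLinearMap.adjoint_inner_right,
        real_inner_self_eq_norm_sq]
      simp
      ring
    exact (pow_left_inj₀ (norm_nonneg _) (norm_nonneg _) two_ne_zero).1 e1
  have h2 : (stdGaussian E).map R = stdGaussian E := map_std R hRn
  have h3 : ∫ x, P (R x) ^ 2 ∂stdGaussian E = ∫ x, P x ^ 2 ∂stdGaussian E := by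
    conv_rhs => rw [← h2]
    rw [integral_map (f := fun y => P y ^ 2) R.continuous.aemeasurable
      ((semi_cont P).pow 2).aestronglyMeasurable]
  have h4 : ∫ x, (P.comp J.toLinearMap) x ^ 2 ∂stdGaussian F =
      ∫ x, P (J (J.adjoint x)) ^ 2 ∂stdGaussian E := by
    conv_lhs => rw [← h1]
    rw [integral_map (f := fun y => (P.comp J.toLinearMap) y ^ 2)
      J.adjoint.continuous.aemeasurable
      ((semi_cont (P.comp J.toLinearMap)).pow 2).aestronglyMeasurable]
    rfl
  have hle : ∀ x, P (J (J.adjoint x)) ^ 2 ≤ (P x ^ 2 + P (R x) ^ 2) / 2 := by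
    intro x
    have e1 : (2 : ℝ) • J (J.adjoint x) = x + R x := by rw [hR]; abel
    have e2 : 2 * P (J (J.adjoint x)) ≤ P x + P (R x) := by
      have := map_add_le_add P x (R x)
      rw [← e1, map_smul_eq_mul] at this
      simpa using this
    have e3 := apply_nonneg P (J (J.adjoint x))
    have e4 := apply_nonneg P x
    have e5 := apply_nonneg P (R x)
    nlinarith [sq_nonneg (P x - P (R x)), mul_self_le_mul_self (by linarith) e2]
  have i1 := semi_sq_int P
  have i2 : Integrable (fun x => P (R x) ^ 2) (stdGaussian E) := by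
    have := semi_sq_int (P.comp R.toLinearMap)
    exact this
  have i3 : Integrable (fun x => P (J (J.adjoint x)) ^ 2) (stdGaussian E) := by
    have := semi_sq_int (P.comp (J ∘L J.adjoint).toLinearMap)
    exact this
  have h5 := integral_mono i3 ((i1.add i2).div_const 2) hle
  rw [integral_div] at h5
  have h6 : ∫ x, (P x ^ 2 + P (R x) ^ 2) ∂stdGaussian E =
      (∫ x, P x ^ 2 ∂stdGaussian E) + ∫ x, P (R x) ^ 2 ∂stdGaussian E := integral_add i1 i2
  refine Real.sqrt_le_sqrt ?_
  rw [h4]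
  refine h5.trans (le_of_eq ?_)
  show (∫ x, (P x ^ 2 + P (R x) ^ 2) ∂stdGaussian E) / 2 = _
  rw [h6, h3]; ring

/-- `P ≤ l(P) ‖·‖` -/
theorem le_ellp (P : Seminorm ℝ E) (x : E) : P x ≤ ellp P * ‖x‖ := by
  rcases eq_or_ne x 0 with rfl | hx
  · simp
  have hx0 : 0 < ‖x‖ := norm_pos_iff.2 hx
  let u : E := ‖x‖⁻¹ • x
  have hu : ‖u‖ = 1 := by
    show ‖‖x‖⁻¹ • x‖ = 1
    rw [norm_smul, norm_inv, norm_norm, inv_mul_cancel₀ hx0.ne']
  let J : ℝ →L[ℝ] E := ContinuousLinearMap.toSpanSingleton ℝ u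
  have hJ : ∀ c : ℝ, J.adjoint (J c) = c := by
    intro c
    refine ext_inner_right ℝ fun d => ?_
    rw [ContinuousLinearMap.adjoint_inner_left]
    show ⟪c • u, d • u⟫ = ⟪c, d⟫
    rw [inner_smul_left, inner_smul_right, real_inner_self_eq_norm_sq, hu]
    simp [mul_comm]
  have h1 := ellp_comp_iso J hJ P
  have h2 : ellp (P.comp J.toLinearMap) = P u := by
    unfold ellp
    have e1 : ∀ c : ℝ, (P.comp J.toLinearMap) c ^ 2 = P u ^ 2 * ⟪(1 : ℝ), c⟫ ^ 2 := by
      intro c
      show P (c • u) ^ 2 = _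
      rw [map_smul_eq_mul, mul_pow]
      simp [mul_comm]
    simp_rw [e1]
    rw [integral_const_mul, int_inner_sq]
    simp [apply_nonneg P u]
  rw [h2] at h1
  have h3 : P x = ‖x‖ * P u := by
    have : x = ‖x‖ • u := by
      show x = ‖x‖ • ‖x‖⁻¹ • x
      rw [smul_smul, mul_inv_cancel₀ hx0.ne', one_smul]
    conv_lhs => rw [this]
    rw [map_smul_eq_mul, norm_norm]
  rw [h3, mul_comm]
  exact mul_le_mul_of_nonneg_right h1 hx0.le

end Pool.Agent.Work.MP_c13439_pq_h57
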