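import Pool.Agent.Work.MP_c13439_pq_helper57.TraceDual

/-! # The minimiser of `l(B) l*(B⁻¹)` and its first order condition (helper57) -/

set_option autoImplicit false

open MeasureTheory ProbabilityTheory Set Module Filter Topology
open scoped RealInnerProductSpace ENNReal NNReal

namespace Pool.Agent.Work.MP_c13439_pq_h57

open Pool.PQ

variable {N : ℕ}

theorem smul_mul_op (c : ℝ) (A B : Op N) : (c • A) * B = c • (A * B) := rfl

theorem mul_smul_op (c : ℝ) (A B : Op N) : A * (c • B) = c • (A * B) := by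
  ext1 x
  exact map_smul A c (B x)

theorem mul_neg_op (A B : Op N) : A * (-B) = -(A * B) := by
  ext1 x
  exact map_neg A (B x)

theorem smul_mul_smul_op (c d : ℝ) (A B : Op N) : (c • A) * (d • B) = (c * d) • (A * B) := by
  rw [mul_smul_op, smul_mul_op, smul_smul, mul_comm d c]

theorem StarLe.smul' {p : Seminorm ℝ (Eu N)} {A : Op N} {c : ℝ} (h : StarLe p A c) {t : ℝ}
    (ht : 0 ≤ t) : StarLe p (t • A) (t * c) := by
  refine (starLe_iff _ _ _).2 fun V => ?_
  rw [ContinuousLinearMap.smul_comp, map_smul, smul_eq_mul, mul_assoc]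
  exact mul_le_mul_of_nonneg_left (h V) ht

theorem StarLe.mono' {p : Seminorm ℝ (Eu N)} {A : Op N} {c c' : ℝ} (h : StarLe p A c)
    (hc : c ≤ c') : StarLe p A c' := by
  refine (starLe_iff _ _ _).2 fun V => (h V).trans ?_
  exact mul_le_mul_of_nonneg_right hc (ell_nonneg p V)

theorem one_ne (hN : 1 ≤ N) : (1 : Op N) ≠ 0 := by
  intro h
  have : Nonempty (Fin N) := ⟨⟨0, hN⟩⟩
  have h1 : (1 : Op N) (EuclideanSpace.basisFun (Fin N) ℝ ⟨0, hN⟩) = 0 := by rw [h]; rfl
  have h2 : ‖(EuclideanSpace.basisFun (Fin N) ℝ ⟨0, hN⟩)‖ = 1 :=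
    (EuclideanSpace.basisFun (Fin N) ℝ).norm_eq_one _
  rw [one_apply_eq_self] at h1
  rw [h1, norm_zero] at h2
  exact zero_ne_one h2

theorem ell_pos (X : DN N) {B : Op N} (hB : B ≠ 0) : 0 < ell X.p B :=
  lt_of_le_of_ne (ell_nonneg _ _) fun h => hB (ell_eq_zero X h.symm)

theorem star_pos (X : DN N) {A : Op N} (hA : A ≠ 0) {c : ℝ} (h : StarLe X.p A c) : 0 < c := by
  have h1 := h (ContinuousLinearMap.adjoint A)
  have h2 := norm_sq_le_tr A
  have h3 : 0 < ‖A‖ := norm_pos_iff.2 hA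
  have h4 : (0 : ℝ) < ‖A‖ ^ 2 := by positivity
  have h5 : 0 < c * ell X.p (ContinuousLinearMap.adjoint A) := h4.trans_le (h2.trans h1)
  by_contra hn
  push Not at hn
  have := mul_nonpos_of_nonpos_of_nonneg hn (ell_nonneg X.p (ContinuousLinearMap.adjoint A))
  linarith

/-- existence of the minimiser -/
theorem exists_min (hN : 1 ≤ N) (Z Z' : DN N) : ∃ (A B : Op N) (lam : ℝ),
    A * B = 1 ∧ ell Z'.p B = 1 ∧ StarLe Z.p A lam ∧ 0 < lam ∧
      ∀ (A' B' : Op N) (c : ℝ), A' * B' = 1 → StarLe Z.p A' c → lam ≤ ell Z'.p B' * c := by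
  have h1ne := one_ne hN
  have ne_of : ∀ {A B : Op N}, A * B = 1 → A ≠ 0 ∧ B ≠ 0 := by
    intro A B h
    constructor
    · rintro rfl; rw [zero_mul] at h; exact h1ne h.symm
    · rintro rfl; rw [mul_zero] at h; exact h1ne h.symm
  -- an initial point
  set β := ell Z'.p (1 : Op N) with hβ
  have hβ0 : 0 < β := ell_pos Z' h1ne
  obtain ⟨V0, hV0, hS0⟩ := star_att Z (β • (1 : Op N))
  set c0 := trL N ((β • (1 : Op N)) ∘L V0) with hc0
  have hAB0 : (β • (1 : Op N)) * (β⁻¹ • (1 : Op N)) = 1 := by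
    rw [smul_mul_smul_op, mul_one, mul_inv_cancel₀ hβ0.ne', one_smul]
  have hc0pos : 0 < c0 := star_pos Z (ne_of hAB0).1 hS0
  let T : Set (Op N × Op N × ℝ) := {t | t.1 * t.2.1 = 1 ∧ ell Z'.p t.2.1 = 1 ∧
    StarLe Z.p t.1 t.2.2 ∧ t.2.2 ≤ c0}
  have hTc : IsClosed T := by
    have c1 : Continuous fun t : Op N × Op N × ℝ => t.1 * t.2.1 :=
      continuous_fst.mul (continuous_fst.comp continuous_snd)
    have c2 : Continuous fun t : Op N × Op N × ℝ => ell Z'.p t.2.1 :=
      (ell_cont Z'.p).comp (continuous_fst.comp continuous_snd)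
    have c3 : Continuous fun t : Op N × Op N × ℝ => (t.1, t.2.2) :=
      continuous_fst.prodMk (continuous_snd.comp continuous_snd)
    exact (isClosed_eq c1 continuous_const).inter ((isClosed_eq c2 continuous_const).inter
      (((star_closed Z.p).preimage c3).inter
        (isClosed_le (continuous_snd.comp continuous_snd) continuous_const)))
  have hTk : IsCompact T := by
    refine ((star_compact Z.p hc0pos.le).prod ((ell_ball_compact Z' 1).prod
      (isCompact_Icc (a := (0 : ℝ)) (b := c0)))).of_isClosed_subset hTc ?_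
    rintro ⟨A, B, c⟩ ⟨t1, t2, t3, t4⟩
    exact ⟨StarLe.mono' t3 t4, t2.le, (star_pos Z (ne_of t1).1 t3).le, t4⟩
  have hTn : T.Nonempty := by
    refine ⟨(β • (1 : Op N), β⁻¹ • (1 : Op N), c0), hAB0, ?_, hS0, le_rfl⟩
    show ell Z'.p (β⁻¹ • (1 : Op N)) = 1
    rw [ell_smul, abs_of_pos (inv_pos.2 hβ0), inv_mul_cancel₀ hβ0.ne']
  obtain ⟨⟨A, B, lam⟩, ⟨t1, t2, t3, t4⟩, hmin⟩ := hTk.exists_isMinOn hTn
    (f := fun t : Op N × Op N × ℝ => t.2.2) (by fun_prop)
  refine ⟨A, B, lam, t1, t2, t3, star_pos Z (ne_of t1).1 t3, fun A' B' c h1 h2 => ?_⟩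
  have hB' : 0 < ell Z'.p B' := ell_pos Z' (ne_of h1).2
  rcases le_or_gt (ell Z'.p B' * c) c0 with h3 | h3
  · have h4 : ((ell Z'.p B') • A', (ell Z'.p B')⁻¹ • B', ell Z'.p B' * c) ∈ T := by
      refine ⟨?_, ?_, StarLe.smul' h2 hB'.le, h3⟩
      · show (ell Z'.p B' • A') * ((ell Z'.p B')⁻¹ • B') = 1
        rw [smul_mul_smul_op, h1, mul_inv_cancel₀ hB'.ne', one_smul]
      · show ell Z'.p ((ell Z'.p B')⁻¹ • B') = 1
        rw [ell_smul, abs_of_pos (inv_pos.2 hB'), inv_mul_cancel₀ hB'.ne']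
    exact hmin h4
  · exact t4.trans h3.le

/-- one direction -/
theorem first_order_dir {Z Z' : DN N} {A B : Op N} {lam : ℝ} (hAB : A * B = 1)
    (hB : ell Z'.p B = 1) (hA : StarLe Z.p A lam) (hlam : 0 < lam)
    (hmin : ∀ (A' B' : Op N) (c : ℝ), A' * B' = 1 → StarLe Z.p A' c → lam ≤ ell Z'.p B' * c)
    (U : Op N) : ∃ Φ V : Op N, StarLe Z'.p Φ 1 ∧ trL N (Φ * B) = 1 ∧ ell Z.p V ≤ 1 ∧
      trL N (A * V) = lam ∧ 0 ≤ trL N ((lam • (Φ * B) - A * V) * U) := by
  let s : ℕ → ℝ := fun n => 1 / ((n : ℝ) + 1)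
  have hs : Tendsto s atTop (𝓝 0) := tendsto_one_div_add_atTop_nhds_zero_nat
  have hs0 : ∀ n, 0 < s n := fun n => by show (0 : ℝ) < 1 / ((n : ℝ) + 1); positivity
  let G : ℕ → Op N := fun n => 1 + s n • U
  have hG : Tendsto G atTop (𝓝 1) := by
    have h1 := hs.smul_const U
    rw [show (0 : ℝ) • U = (0 : Op N) from zero_smul ℝ U] at h1
    have h2 := (tendsto_const_nhds (x := (1 : Op N))).add h1
    rw [show (1 : Op N) + 0 = 1 from add_zero 1] at h2
    exact h2
  let W : ℕ → Op N := fun n => Ring.inverse (G n)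
  have hW : Tendsto W atTop (𝓝 1) := by
    have h1 := NormedRing.inverse_continuousAt (1 : (Op N)ˣ)
    have h2 : Tendsto Ring.inverse (𝓝 (1 : Op N)) (𝓝 (Ring.inverse (1 : Op N))) := h1
    rw [Ring.inverse_one] at h2
    exact h2.comp hG
  have hunit : ∀ᶠ n in atTop, IsUnit (G n) := by
    have h1 : {x : Op N | IsUnit x} ∈ 𝓝 (1 : Op N) := Units.nhds (1 : (Op N)ˣ)
    exact hG.eventually h1
  have hAn : Tendsto (fun n => W n * A) atTop (𝓝 A) := by
    have := hW.mul (tendsto_const_nhds (x := A))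
    rwa [one_mul] at this
  have hBn : Tendsto (fun n => B * G n) atTop (𝓝 B) := by
    have := (tendsto_const_nhds (x := B)).mul hG
    rwa [mul_one] at this
  choose V hV1 hV2 using fun n => star_att Z (W n * A)
  choose Φ hΦ1 hΦ2 using fun n => ell_norming Z'.p (B * G n)
  have hK : IsCompact ({Φ : Op N | StarLe Z'.p Φ 1} ×ˢ {V : Op N | ell Z.p V ≤ 1}) :=
    (star_compact Z'.p zero_le_one).prod (ell_ball_compact Z 1)
  obtain ⟨⟨Φ0, V0⟩, ⟨hm1, hm2⟩, φ, hφ, hlim⟩ := hK.tendsto_subseq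
    (x := fun n => (Φ n, V n)) (fun n => ⟨hΦ1 n, hV1 n⟩)
  have lΦ : Tendsto (fun n => Φ (φ n)) atTop (𝓝 Φ0) := (continuous_fst.tendsto _).comp hlim
  have lV : Tendsto (fun n => V (φ n)) atTop (𝓝 V0) := (continuous_snd.tendsto _).comp hlim
  have lA : Tendsto (fun n => W (φ n) * A) atTop (𝓝 A) := hAn.comp hφ.tendsto_atTop
  have lB : Tendsto (fun n => B * G (φ n)) atTop (𝓝 B) := hBn.comp hφ.tendsto_atTop
  have ls : Tendsto (fun n => s (φ n)) atTop (𝓝 0) := hs.comp hφ.tendsto_atTop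
  have trc : ∀ {f : ℕ → Op N} {F : Op N}, Tendsto f atTop (𝓝 F) →
      Tendsto (fun n => trL N (f n)) atTop (𝓝 (trL N F)) := fun h =>
    (trL_cont.tendsto _).comp h
  have l1 : Tendsto (fun n => trL N (Φ (φ n) * (B * G (φ n)))) atTop (𝓝 (trL N (Φ0 * B))) :=
    trc (lΦ.mul lB)
  have l2 : Tendsto (fun n => ell Z'.p (B * G (φ n))) atTop (𝓝 1) := by
    have := ((ell_cont Z'.p).tendsto B).comp lB
    rwa [hB] at this
  have l3 : Tendsto (fun n => trL N (W (φ n) * A * V (φ n))) atTop (𝓝 (trL N (A * V0))) :=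
    trc (lA.mul lV)
  have e1 : trL N (Φ0 * B) = 1 := by
    refine tendsto_nhds_unique l1 ?_
    refine l2.congr fun n => ?_
    exact (hΦ2 (φ n)).symm
  have hev : ∀ᶠ n in atTop, IsUnit (G (φ n)) := hφ.tendsto_atTop.eventually hunit
  -- the inequalities for large `n`
  have key : ∀ᶠ n in atTop, lam ≤ ell Z'.p (B * G (φ n)) * trL N (W (φ n) * A * V (φ n)) ∧
      0 ≤ lam * trL N (Φ (φ n) * B * U) - trL N (U * (W (φ n) * A) * V (φ n)) -
        s (φ n) * trL N (Φ (φ n) * B * U) * trL N (U * (W (φ n) * A) * V (φ n)) := by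
    filter_upwards [hev] with n hn
    set k := φ n
    have hWG : W k * G k = 1 := Ring.inverse_mul_cancel _ hn
    have hGW : G k * W k = 1 := Ring.mul_inverse_cancel _ hn
    have h1 : (W k * A) * (B * G k) = 1 := by
      rw [mul_assoc, ← mul_assoc A B, hAB, one_mul, hWG]
    have h2 : lam ≤ ell Z'.p (B * G k) * trL N (W k * A * V k) := hmin _ _ _ h1 (hV2 k)
    refine ⟨h2, ?_⟩
    have h3 : ell Z'.p (B * G k) ≤ 1 + s k * trL N (Φ k * B * U) := by
      have h4 : trL N (Φ k * (B * G k)) = ell Z'.p (B * G k) := hΦ2 k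
      have h5 : Φ k * (B * G k) = Φ k * B + s k • (Φ k * B * U) := by
        show Φ k * (B * (1 + s k • U)) = _
        rw [mul_add, mul_one, mul_add, mul_smul_op, mul_smul_op, mul_assoc]
      rw [← h4, h5, map_add, map_smul, smul_eq_mul]
      have h6 : trL N (Φ k * B) ≤ 1 * ell Z'.p B := hΦ1 k B
      rw [hB, mul_one] at h6
      linarith
    have h4 : trL N (W k * A * V k) ≤ lam - s k * trL N (U * (W k * A) * V k) := by
      have h5 : A = W k * A + s k • (U * (W k * A)) := by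
        have : A = G k * (W k * A) := by rw [← mul_assoc, hGW, one_mul]
        conv_lhs => rw [this]
        show (1 + s k • U) * (W k * A) = _
        rw [add_mul, one_mul, smul_mul_op]
      have h6 : trL N (A * V k) = trL N (W k * A * V k) +
          s k * trL N (U * (W k * A) * V k) := by
        conv_lhs => rw [h5]
        rw [add_mul, map_add, smul_mul_op, map_smul, smul_eq_mul]
      have h7 : trL N (A * V k) ≤ lam * ell Z.p (V k) := hA (V k)
      have h8 : lam * ell Z.p (V k) ≤ lam * 1 := mul_le_mul_of_nonneg_left (hV1 k) hlam.le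
      linarith
    set x := trL N (Φ k * B * U)
    set y := trL N (U * (W k * A) * V k)
    set c := trL N (W k * A * V k)
    set e := ell Z'.p (B * G k)
    have he : 0 ≤ e := ell_nonneg _ _
    have hc : 0 < c := by
      by_contra hn'
      push Not at hn'
      have := mul_nonpos_of_nonneg_of_nonpos he hn'
      linarith
    have h9 : e * c ≤ (1 + s k * x) * c := mul_le_mul_of_nonneg_right h3 hc.le
    have h10 : (1 + s k * x) * c ≤ (1 + s k * x) * (lam - s k * y) :=
      mul_le_mul_of_nonneg_left h4 (he.trans h3)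
    have h11 : 0 ≤ s k * (lam * x - y - s k * x * y) := by
      have : (1 + s k * x) * (lam - s k * y) = lam + s k * (lam * x - y - s k * x * y) := by ring
      linarith
    exact nonneg_of_mul_nonneg_right h11 (hs0 k)
  have e2 : trL N (A * V0) = lam := by
    refine le_antisymm ?_ ?_
    · have h1 : trL N (A * V0) ≤ lam * ell Z.p V0 := hA V0
      have h2 : lam * ell Z.p V0 ≤ lam * 1 := mul_le_mul_of_nonneg_left hm2 hlam.le
      linarith
    · have h1 := l2.mul l3
      rw [one_mul] at h1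
      exact ge_of_tendsto h1 (key.mono fun n hn => hn.1)
  refine ⟨Φ0, V0, hm1, e1, hm2, e2, ?_⟩
  have l4 : Tendsto (fun n => trL N (Φ (φ n) * B * U)) atTop (𝓝 (trL N (Φ0 * B * U))) :=
    trc ((lΦ.mul tendsto_const_nhds).mul tendsto_const_nhds)
  have l5 : Tendsto (fun n => trL N (U * (W (φ n) * A) * V (φ n))) atTop
      (𝓝 (trL N (U * A * V0))) := trc ((tendsto_const_nhds.mul lA).mul lV)
  have l6 := ((l4.const_mul lam).sub l5).sub ((ls.mul l4).mul l5)
  have h1 := ge_of_tendsto l6 (key.mono fun n hn => hn.2)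
  rw [zero_mul, zero_mul, sub_zero] at h1
  have h2 : trL N ((lam • (Φ0 * B) - A * V0) * U) =
      lam * trL N (Φ0 * B * U) - trL N (U * A * V0) := by
    rw [sub_mul, map_sub, smul_mul_op, map_smul, smul_eq_mul]
    congr 1
    exact (trL_comm (A * V0) U).trans (by rw [mul_assoc]; rfl)
  rw [h2]
  exact h1

/-- **first order condition** -/
theorem first_order {Z Z' : DN N} {A B : Op N} {lam : ℝ} (hAB : A * B = 1)
    (hB : ell Z'.p B = 1) (hA : StarLe Z.p A lam) (hlam : 0 < lam)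
    (hmin : ∀ (A' B' : Op N) (c : ℝ), A' * B' = 1 → StarLe Z.p A' c → lam ≤ ell Z'.p B' * c) :
    ∃ Φ V : Op N, StarLe Z'.p Φ 1 ∧ trL N (Φ * B) = 1 ∧ ell Z.p V ≤ 1 ∧
      lam • (Φ * B) = A * V := by
  let K : Set (Op N × Op N) := {z | StarLe Z'.p z.1 1 ∧ trL N (z.1 * B) = 1 ∧
    ell Z.p z.2 ≤ 1 ∧ trL N (A * z.2) = lam}
  let F : Op N × Op N → Op N := fun z => lam • (z.1 * B) - A * z.2
  have hFc : Continuous F :=
    ((continuous_fst.mul continuous_const).const_smul lam).sub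
      (continuous_const.mul continuous_snd)
  have hKc : IsCompact K := by
    refine ((star_compact Z'.p zero_le_one).prod (ell_ball_compact Z 1)).of_isClosed_subset ?_ ?_
    · have c1 : Continuous fun z : Op N × Op N => (z.1, (1 : ℝ)) :=
        continuous_fst.prodMk continuous_const
      have c2 : Continuous fun z : Op N × Op N => trL N (z.1 * B) :=
        trL_cont.comp (continuous_fst.mul continuous_const)
      have c3 : Continuous fun z : Op N × Op N => ell Z.p z.2 :=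
        (ell_cont Z.p).comp continuous_snd
      have c4 : Continuous fun z : Op N × Op N => trL N (A * z.2) :=
        trL_cont.comp (continuous_const.mul continuous_snd)
      exact ((star_closed Z'.p).preimage c1).inter ((isClosed_eq c2 continuous_const).inter
        ((isClosed_le c3 continuous_const).inter (isClosed_eq c4 continuous_const)))
    · rintro ⟨Φ, V⟩ ⟨h1, _, h3, _⟩
      exact ⟨h1, h3⟩
  have hKv : Convex ℝ K := by
    rintro ⟨Φ1, V1⟩ ⟨h1, h2, h3, h4⟩ ⟨Φ2, V2⟩ ⟨g1, g2, g3, g4⟩ s t hs ht hst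
    refine ⟨?_, ?_, ?_, ?_⟩
    · refine (starLe_iff _ _ _).2 fun V => ?_
      show trL N ((s • Φ1 + t • Φ2) * V) ≤ 1 * ell Z'.p V
      rw [add_mul, smul_mul_op, smul_mul_op, map_add, map_smul, map_smul, smul_eq_mul,
        smul_eq_mul]
      have e1 : trL N (Φ1 * V) ≤ 1 * ell Z'.p V := h1 V
      have e2 : trL N (Φ2 * V) ≤ 1 * ell Z'.p V := g1 V
      calc s * trL N (Φ1 * V) + t * trL N (Φ2 * V) ≤
          s * (1 * ell Z'.p V) + t * (1 * ell Z'.p V) :=
            add_le_add (mul_le_mul_of_nonneg_left e1 hs) (mul_le_mul_of_nonneg_left e2 ht)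
        _ = (s + t) * ell Z'.p V := by ring
        _ = 1 * ell Z'.p V := by rw [hst]
    · show trL N ((s • Φ1 + t • Φ2) * B) = 1
      have e1 : trL N (Φ1 * B) = 1 := h2
      have e2 : trL N (Φ2 * B) = 1 := g2
      rw [add_mul, smul_mul_op, smul_mul_op, map_add, map_smul, map_smul, e1, e2,
        smul_eq_mul, smul_eq_mul, mul_one, mul_one, hst]
    · show ell Z.p (s • V1 + t • V2) ≤ 1
      have e1 : ell Z.p V1 ≤ 1 := h3
      have e2 : ell Z.p V2 ≤ 1 := g3
      refine (ell_add _ _ _).trans ?_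
      rw [ell_smul, ell_smul, abs_of_nonneg hs, abs_of_nonneg ht]
      calc s * ell Z.p V1 + t * ell Z.p V2 ≤ s * 1 + t * 1 :=
            add_le_add (mul_le_mul_of_nonneg_left e1 hs) (mul_le_mul_of_nonneg_left e2 ht)
        _ = 1 := by rw [mul_one, mul_one, hst]
    · show trL N (A * (s • V1 + t • V2)) = lam
      have e1 : trL N (A * V1) = lam := h4
      have e2 : trL N (A * V2) = lam := g4
      rw [mul_add, mul_smul_op, mul_smul_op, map_add, map_smul, map_smul, e1, e2,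
        smul_eq_mul, smul_eq_mul, ← add_mul, hst, one_mul]
  let FL : Op N × Op N →ₗ[ℝ] Op N :=
    { toFun := F
      map_add' := by
        rintro ⟨Φ1, V1⟩ ⟨Φ2, V2⟩
        show lam • ((Φ1 + Φ2) * B) - A * (V1 + V2) =
          (lam • (Φ1 * B) - A * V1) + (lam • (Φ2 * B) - A * V2)
        rw [add_mul, mul_add, smul_add]; abel
      map_smul' := by
        rintro c ⟨Φ1, V1⟩
        show lam • ((c • Φ1) * B) - A * (c • V1) = c • (lam • (Φ1 * B) - A * V1)
        rw [smul_mul_op, mul_smul_op, smul_sub, smul_comm] }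
  have hCc : IsCompact (F '' K) := hKc.image hFc
  have hCv : Convex ℝ (F '' K) := hKv.linear_image FL
  by_contra hno
  have h0 : (0 : Op N) ∉ F '' K := by
    rintro ⟨⟨Φ, V⟩, ⟨h1, h2, h3, _⟩, hF⟩
    exact hno ⟨Φ, V, h1, h2, h3, sub_eq_zero.1 hF⟩
  obtain ⟨f, u, hf0, hf⟩ := geometric_hahn_banach_point_closed hCv hCc.isClosed h0
  rw [map_zero] at hf0
  obtain ⟨Ψ, hΨ⟩ := tr_repr f.toLinearMap
  obtain ⟨Φ, V, h1, h2, h3, h4, h5⟩ := first_order_dir hAB hB hA hlam hmin (-Ψ)
  have h6 : u < f (F (Φ, V)) := hf _ ⟨(Φ, V), ⟨h1, h2, h3, h4⟩, rfl⟩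
  have h7 : f (F (Φ, V)) = trL N (Ψ * F (Φ, V)) := hΨ _
  have h8 : trL N (F (Φ, V) * Ψ) = trL N (Ψ * F (Φ, V)) := trL_comm _ _
  have h9 : trL N ((lam • (Φ * B) - A * V) * -Ψ) = -trL N (F (Φ, V) * Ψ) := by
    rw [mul_neg_op, map_neg]
  rw [h9, h8, ← h7] at h5
  linarith

end Pool.Agent.Work.MP_c13439_pq_h57
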