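import Pool.Agent.Work.MP_c13439_pq_helper57.Lewis

/-! # `R = Φ B` is symmetric and positive (helper57) -/

set_option autoImplicit false

open MeasureTheory ProbabilityTheory Set Module Filter Topology
open scoped RealInnerProductSpace ENNReal NNReal

namespace Pool.Agent.Work.MP_c13439_pq_h57

open Pool.PQ

variable {N : ℕ}

theorem ell_orth (p : Seminorm ℝ (Eu N)) (B O : Op N)
    (hO : ∀ t, ‖ContinuousLinearMap.adjoint O t‖ = ‖t‖) : ell p (B * O) = ell p B := by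
  have h1 : (gs N).map O = gs N := map_std O hO
  have h2 : ∫ x, p (B (O x)) ^ 2 ∂gs N = ∫ x, p (B x) ^ 2 ∂gs N := by
    conv_rhs => rw [← h1]
    rw [integral_map (f := fun y => p (B y) ^ 2) O.continuous.aemeasurable
      (((semi_cont p).comp B.continuous).pow 2).aestronglyMeasurable]
  unfold ell
  rw [← h2]
  rfl

/-- Householder reflection -/
noncomputable def hh (u : Eu N) : Op N := 1 - (2 : ℝ) • rk u u

theorem hh_apply (u x : Eu N) : hh u x = x - (2 * ⟪u, x⟫) • u := by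
  show x - (2 : ℝ) • (⟪u, x⟫ • u) = _
  rw [smul_smul]

theorem hh_norm {u : Eu N} (hu : ‖u‖ = 1) (x : Eu N) : ‖hh u x‖ = ‖x‖ := by
  have h1 : ‖hh u x‖ ^ 2 = ‖x‖ ^ 2 := by
    rw [hh_apply, norm_sub_sq_real, norm_smul, hu, inner_smul_right, real_inner_comm x u, mul_one,
      Real.norm_eq_abs, sq_abs]
    ring
  exact (pow_left_inj₀ (norm_nonneg _) (norm_nonneg _) two_ne_zero).1 h1

theorem hh_adj (u : Eu N) : ContinuousLinearMap.adjoint (hh u) = hh u := by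
  ext1 x
  refine ext_inner_right ℝ fun y => ?_
  rw [ContinuousLinearMap.adjoint_inner_left, hh_apply, hh_apply, inner_sub_left, inner_sub_right,
    inner_smul_left, inner_smul_right, real_inner_comm x u]
  simp only [conj_trivial]
  ring

theorem adj_mul (A B : Op N) : ContinuousLinearMap.adjoint (A * B) =
    ContinuousLinearMap.adjoint B * ContinuousLinearMap.adjoint A := by
  ext1 x
  refine ext_inner_right ℝ fun y => ?_
  rw [ContinuousLinearMap.adjoint_inner_left]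
  show ⟪x, A (B y)⟫ = ⟪ContinuousLinearMap.adjoint B (ContinuousLinearMap.adjoint A x), y⟫
  rw [ContinuousLinearMap.adjoint_inner_left, ContinuousLinearMap.adjoint_inner_left]

theorem lin_zero {a b : ℝ} (h : ∀ ε : ℝ, 0 ≤ ε * a + ε ^ 2 * b) : a = 0 := by
  by_contra ha
  have hb : 0 < |b| + 1 := by positivity
  have h1 := h (-a / (|b| + 1))
  have h2 : -a / (|b| + 1) * a + (-a / (|b| + 1)) ^ 2 * b =
      a ^ 2 * (b - |b| - 1) / (|b| + 1) ^ 2 := by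
    field_simp; ring
  rw [h2] at h1
  have h3 : 0 < a ^ 2 := by positivity
  have h4 : b - |b| - 1 < 0 := by have := le_abs_self b; linarith
  have h5 := div_neg_of_neg_of_pos (mul_neg_of_pos_of_neg h3 h4)
    (by positivity : (0 : ℝ) < (|b| + 1) ^ 2)
  linarith

section
variable {Z' : DN N} {Φ B : Op N}

theorem tr_orth_le (hΦ : StarLe Z'.p Φ 1) (hB : ell Z'.p B = 1) (hT : trL N (Φ * B) = 1) (O : Op N)
    (hO : ∀ t, ‖ContinuousLinearMap.adjoint O t‖ = ‖t‖) :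
    trL N (Φ * B * O) ≤ trL N (Φ * B) := by
  have h1 : trL N (Φ * (B * O)) ≤ 1 * ell Z'.p (B * O) := hΦ (B * O)
  rw [ell_orth _ _ _ hO, hB, mul_one] at h1
  rw [hT, mul_assoc]
  exact h1

theorem R_nonneg (hΦ : StarLe Z'.p Φ 1) (hB : ell Z'.p B = 1) (hT : trL N (Φ * B) = 1)
    (u : Eu N) : 0 ≤ ⟪u, (Φ * B) u⟫ := by
  have key : ∀ u : Eu N, ‖u‖ = 1 → 0 ≤ ⟪u, (Φ * B) u⟫ := by
    intro u hu
    have h1 := tr_orth_le hΦ hB hT (hh u) (fun t => by rw [hh_adj]; exact hh_norm hu t)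
    have h2 : Φ * B * hh u = Φ * B - (2 : ℝ) • (Φ * B * rk u u) := by
      unfold hh
      rw [mul_sub, mul_one, mul_smul_op]
    have h3 : trL N (Φ * B * rk u u) = ⟪u, (Φ * B) u⟫ := tr_rk _ _ _
    rw [h2, map_sub, map_smul, h3, smul_eq_mul] at h1
    linarith
  rcases eq_or_ne u 0 with rfl | hu
  · simp
  have hu0 : 0 < ‖u‖ := norm_pos_iff.2 hu
  have h1 := key (‖u‖⁻¹ • u) (by rw [norm_smul, norm_inv, norm_norm, inv_mul_cancel₀ hu0.ne'])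
  rw [map_smul, inner_smul_left, inner_smul_right] at h1
  simp only [conj_trivial] at h1
  have h2 : ⟪u, (Φ * B) u⟫ = ‖u‖ ^ 2 * (‖u‖⁻¹ * (‖u‖⁻¹ * ⟪u, (Φ * B) u⟫)) := by
    field_simp
  rw [h2]
  positivity

theorem R_pair (hΦ : StarLe Z'.p Φ 1) (hB : ell Z'.p B = 1) (hT : trL N (Φ * B) = 1)
    (u w : Eu N) : 2 * (⟪u, w⟫ * ⟪w, (Φ * B) u⟫) ≤
      ‖w‖ ^ 2 * ⟪u, (Φ * B) u⟫ + ‖u‖ ^ 2 * ⟪w, (Φ * B) w⟫ := by
  have key : ∀ u w : Eu N, ‖u‖ = 1 → ‖w‖ = 1 → 2 * (⟪u, w⟫ * ⟪w, (Φ * B) u⟫) ≤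
      ⟪u, (Φ * B) u⟫ + ⟪w, (Φ * B) w⟫ := by
    intro u w hu hw
    have h1 := tr_orth_le hΦ hB hT (hh u * hh w) (fun t => by
      rw [adj_mul, hh_adj, hh_adj]
      show ‖hh w (hh u t)‖ = _
      rw [hh_norm hw, hh_norm hu])
    have h2 : hh u * hh w = 1 - (2 : ℝ) • rk u u - (2 : ℝ) • rk w w +
        (4 * ⟪u, w⟫) • rk u w := by
      ext1 x
      show hh u (hh w x) = x - (2 : ℝ) • (⟪u, x⟫ • u) - (2 : ℝ) • (⟪w, x⟫ • w) +
        (4 * ⟪u, w⟫) • (⟪w, x⟫ • u)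
      rw [hh_apply, hh_apply, inner_sub_right, inner_smul_right]
      module
    have h3 : Φ * B * (hh u * hh w) = Φ * B - (2 : ℝ) • (Φ * B * rk u u) -
        (2 : ℝ) • (Φ * B * rk w w) + (4 * ⟪u, w⟫) • (Φ * B * rk u w) := by
      rw [h2, mul_add, mul_sub, mul_sub, mul_one, mul_smul_op, mul_smul_op, mul_smul_op]
    have h4 : trL N (Φ * B * rk u u) = ⟪u, (Φ * B) u⟫ := tr_rk _ _ _
    have h5 : trL N (Φ * B * rk w w) = ⟪w, (Φ * B) w⟫ := tr_rk _ _ _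
    have h6 : trL N (Φ * B * rk u w) = ⟪w, (Φ * B) u⟫ := tr_rk _ _ _
    rw [h3, map_add, map_sub, map_sub, map_smul, map_smul, map_smul, h4, h5, h6, smul_eq_mul,
      smul_eq_mul, smul_eq_mul] at h1
    linarith
  rcases eq_or_ne u 0 with rfl | hu
  · simp
  rcases eq_or_ne w 0 with rfl | hw
  · simp
  have hu0 : 0 < ‖u‖ := norm_pos_iff.2 hu
  have hw0 : 0 < ‖w‖ := norm_pos_iff.2 hw
  have h1 := key (‖u‖⁻¹ • u) (‖w‖⁻¹ • w)
    (by rw [norm_smul, norm_inv, norm_norm, inv_mul_cancel₀ hu0.ne'])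
    (by rw [norm_smul, norm_inv, norm_norm, inv_mul_cancel₀ hw0.ne'])
  simp only [map_smul, inner_smul_left, inner_smul_right, conj_trivial] at h1
  have h2 := mul_le_mul_of_nonneg_left h1 (by positivity : 0 ≤ ‖u‖ ^ 2 * ‖w‖ ^ 2)
  have e1 : ‖u‖ ^ 2 * ‖w‖ ^ 2 * (2 * (‖w‖⁻¹ * (‖u‖⁻¹ * ⟪u, w⟫) *
      (‖u‖⁻¹ * (‖w‖⁻¹ * ⟪w, (Φ * B) u⟫)))) = 2 * (⟪u, w⟫ * ⟪w, (Φ * B) u⟫) := by
    field_simp
  have e2 : ‖u‖ ^ 2 * ‖w‖ ^ 2 * (‖u‖⁻¹ * (‖u‖⁻¹ * ⟪u, (Φ * B) u⟫) +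
      ‖w‖⁻¹ * (‖w‖⁻¹ * ⟪w, (Φ * B) w⟫)) =
      ‖w‖ ^ 2 * ⟪u, (Φ * B) u⟫ + ‖u‖ ^ 2 * ⟪w, (Φ * B) w⟫ := by
    field_simp
  rw [e2] at h2
  refine le_trans (le_of_eq ?_) h2
  rw [← e1]

theorem R_symm (hΦ : StarLe Z'.p Φ 1) (hB : ell Z'.p B = 1) (hT : trL N (Φ * B) = 1)
    (u z : Eu N) : ⟪(Φ * B) u, z⟫ = ⟪u, (Φ * B) z⟫ := by
  rcases eq_or_ne u 0 with rfl | hu
  · simp
  have hu0 : 0 < ‖u‖ := norm_pos_iff.2 hu
  have h1 : ‖u‖ ^ 2 * (⟪u, (Φ * B) z⟫ - ⟪z, (Φ * B) u⟫) = 0 := by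
    refine lin_zero (b := ‖z‖ ^ 2 * ⟪u, (Φ * B) u⟫ + ‖u‖ ^ 2 * ⟪z, (Φ * B) z⟫ -
      2 * (⟪u, z⟫ * ⟪z, (Φ * B) u⟫)) fun ε => ?_
    have h2 := R_pair hΦ hB hT u (u + ε • z)
    rw [norm_add_sq_real, map_add, map_smul, norm_smul, mul_pow, Real.norm_eq_abs, sq_abs] at h2
    simp only [inner_add_left, inner_add_right, inner_smul_left, inner_smul_right, conj_trivial,
      real_inner_self_eq_norm_sq] at h2
    nlinarith [h2]
  have h2 : ⟪u, (Φ * B) z⟫ - ⟪z, (Φ * B) u⟫ = 0 :=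
    (mul_eq_zero.1 h1).resolve_left (by positivity)
  rw [real_inner_comm]
  linarith

end

end Pool.Agent.Work.MP_c13439_pq_h57
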