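import Pool.Agent.Work.MP_c13439_pq_helper57.Law

/-! # Dual Sudakov and Sudakov inequalities (helper57) -/

set_option autoImplicit false

open MeasureTheory ProbabilityTheory Set Module
open scoped RealInnerProductSpace ENNReal NNReal

namespace Pool.Agent.Work.MP_c13439_pq_h57

section cov

variable {E : Type*} [AddCommGroup E]

/-- `K` is covered by at most `n` translates of `{V ≤ e}` -/
def Cv (K : Set E) (V : E → ℝ) (n : ℕ) (e : ℝ) : Prop :=
  ∃ s : Finset E, s.card ≤ n ∧ ∀ x ∈ K, ∃ y ∈ s, V (x - y) ≤ e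

theorem exists_net {K : Set E} {V : E → ℝ} {n : ℕ} {e : ℝ} (he : V 0 ≤ e)
    (hsym : ∀ x, V (-x) = V x)
    (h : ∀ s : Finset E, (∀ x ∈ s, x ∈ K) → (∀ x ∈ s, ∀ y ∈ s, x ≠ y → e < V (x - y)) →
      s.card ≤ n) :
    ∃ s : Finset E, (∀ x ∈ s, x ∈ K) ∧ s.card ≤ n ∧ ∀ x ∈ K, ∃ y ∈ s, V (x - y) ≤ e := by
  classical
  let S : Set ℕ := {c | ∃ s : Finset E, (∀ x ∈ s, x ∈ K) ∧
    (∀ x ∈ s, ∀ y ∈ s, x ≠ y → e < V (x - y)) ∧ s.card = c}
  have hne : S.Nonempty := ⟨0, ∅, by simp, by simp, by simp⟩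
  have hbd : BddAbove S := ⟨n, fun c ⟨s, h1, h2, h3⟩ => h3 ▸ h s h1 h2⟩
  obtain ⟨s, h1, h2, h3⟩ := Nat.sSup_mem hne hbd
  refine ⟨s, h1, h s h1 h2, fun x hx => ?_⟩
  by_contra hn
  push Not at hn
  have hxs : x ∉ s := fun hxs => by
    have := hn x hxs
    rw [sub_self] at this
    linarith
  have h4 : (insert x s).card ∈ S := by
    refine ⟨insert x s, ?_, ?_, rfl⟩
    · intro y hy
      rcases Finset.mem_insert.1 hy with rfl | hy
      · exact hx
      · exact h1 y hy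
    · intro y hy z hz hyz
      rcases Finset.mem_insert.1 hy with h5 | h5
      · rcases Finset.mem_insert.1 hz with h6 | h6
        · exact absurd (h5.trans h6.symm) hyz
        · rw [h5]; exact hn z h6
      · rcases Finset.mem_insert.1 hz with h6 | h6
        · rw [h6, ← neg_sub, hsym]; exact hn y h5
        · exact h2 y h5 z h6 hyz
  have h5 := le_csSup hbd h4
  rw [Finset.card_insert_of_notMem hxs, h3] at h5
  omega

theorem Cv.mono {K K' : Set E} {V : E → ℝ} {n n' : ℕ} {e e' : ℝ} (h : Cv K V n e) (hK : K' ⊆ K)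
    (hn : n ≤ n') (he : e ≤ e') : Cv K' V n' e' := by
  obtain ⟨s, h1, h2⟩ := h
  exact ⟨s, h1.trans hn, fun x hx => (h2 x (hK hx)).imp fun y hy => ⟨hy.1, hy.2.trans he⟩⟩

end cov

section sud

variable {E : Type*} [NormedAddCommGroup E] [InnerProductSpace ℝ E] [FiniteDimensional ℝ E]
  [MeasurableSpace E] [BorelSpace E]

theorem sep_bound (P : Seminorm ℝ E) {r ε : ℝ} (hr : 0 < r) (hε : 0 < ε)
    (hl : 2 * ellp P ^ 2 ≤ r ^ 2) (s : Finset E) (hs : ∀ x ∈ s, ‖x‖ ≤ 1)
    (hsep : ∀ x ∈ s, ∀ y ∈ s, x ≠ y → 2 * ε < P (x - y)) :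
    (s.card : ℝ) ≤ 2 * Real.exp (r ^ 2 / (2 * ε ^ 2)) := by
  let A : Set E := {x | P x ≤ r}
  have hA : MeasurableSet A := measurableSet_le (semi_cont P).measurable measurable_const
  have hAs : ∀ x ∈ A, -x ∈ A := fun x hx => by
    show P (-x) ≤ r
    rw [map_neg_eq_map]; exact hx
  let F : E → Set E := fun x => {z | z - (r / ε) • x ∈ A}
  have hF : ∀ x ∈ s, MeasurableSet (F x) := fun x _ => measurable_sub_const _ hA
  have hσ : 0 < r / ε := by positivity
  have hd : (s : Set E).PairwiseDisjoint F := by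
    intro x hx y hy hxy
    rw [Function.onFun, Set.disjoint_left]
    intro z hz1 hz2
    have h1 : P (z - (r / ε) • x) ≤ r := hz1
    have h2 : P (z - (r / ε) • y) ≤ r := hz2
    have h3 : P ((r / ε) • (x - y)) ≤ r + r := by
      have e1 : (r / ε) • (x - y) = (z - (r / ε) • y) - (z - (r / ε) • x) := by
        rw [smul_sub]; abel
      rw [e1]
      exact (map_sub_le_add P _ _).trans (add_le_add h2 h1)
    rw [map_smul_eq_mul, Real.norm_eq_abs, abs_of_pos hσ] at h3
    have h4 := mul_lt_mul_of_pos_left (hsep x hx y hy hxy) hσ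
    have h5 : r / ε * (2 * ε) = r + r := by field_simp; ring
    linarith
  have h1 : ∑ x ∈ s, (stdGaussian E).real (F x) ≤ 1 := by
    rw [← measureReal_biUnion_finset hd hF]
    exact measureReal_le_one
  have h2 : ∀ x ∈ s, Real.exp (-(r ^ 2 / (2 * ε ^ 2))) * (1 / 2) ≤
      (stdGaussian E).real (F x) := by
    intro x hx
    have h3 := shift_ge hA hAs ((r / ε) • x)
    have h4 := cheb P hr
    have h5 : ellp P ^ 2 / r ^ 2 ≤ 1 / 2 := by
      rw [div_le_div_iff₀ (by positivity) (by norm_num)]; linarith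
    have h6 : -(r ^ 2 / (2 * ε ^ 2)) ≤ -‖(r / ε) • x‖ ^ 2 / 2 := by
      rw [norm_smul, Real.norm_eq_abs, abs_of_pos hσ, mul_pow, div_pow]
      have h7 : ‖x‖ ^ 2 ≤ 1 := pow_le_one₀ (norm_nonneg x) (hs x hx)
      have h8 : r ^ 2 / ε ^ 2 * ‖x‖ ^ 2 ≤ r ^ 2 / ε ^ 2 * 1 :=
        mul_le_mul_of_nonneg_left h7 (by positivity)
      have h9 : r ^ 2 / (2 * ε ^ 2) = r ^ 2 / ε ^ 2 / 2 := by field_simp
      rw [h9]
      linarith
    refine le_trans ?_ h3
    refine mul_le_mul (Real.exp_le_exp.2 h6) (by linarith) (by norm_num) (Real.exp_nonneg _)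
  have h3 := (Finset.sum_le_sum h2).trans h1
  rw [Finset.sum_const, nsmul_eq_mul] at h3
  have h4 : Real.exp (-(r ^ 2 / (2 * ε ^ 2))) * Real.exp (r ^ 2 / (2 * ε ^ 2)) = 1 := by
    rw [← Real.exp_add]; simp
  have h5 := mul_le_mul_of_nonneg_right h3 (Real.exp_nonneg (r ^ 2 / (2 * ε ^ 2)))
  have h6 : (s.card : ℝ) * (Real.exp (-(r ^ 2 / (2 * ε ^ 2))) * (1 / 2)) *
      Real.exp (r ^ 2 / (2 * ε ^ 2)) = s.card / 2 := by
    linear_combination ((s.card : ℝ) / 2) * h4
  linarith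

theorem two_exp_le {k : ℕ} (hk : 2 ≤ k) : 2 * Real.exp (k / 4) ≤ 2 ^ k := by
  have h1 : Real.exp (k / 4) ^ 4 ≤ ((2 : ℝ) ^ (k - 1)) ^ 4 := by
    rw [← Real.exp_nat_mul, ← pow_mul]
    have e1 : ((4 : ℕ) : ℝ) * ((k : ℝ) / 4) = k * 1 := by push_cast; ring
    rw [e1, Real.exp_nat_mul]
    have h2 : Real.exp 1 ≤ 4 := by have := Real.exp_one_lt_d9; linarith
    calc Real.exp 1 ^ k ≤ 4 ^ k := pow_le_pow_left₀ (Real.exp_nonneg _) h2 k
      _ = 2 ^ (2 * k) := by rw [pow_mul]; norm_num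
      _ ≤ 2 ^ ((k - 1) * 4) := pow_le_pow_right₀ (by norm_num) (by omega)
  have h3 : Real.exp (k / 4) ≤ 2 ^ (k - 1) := by
    by_contra hn
    push Not at hn
    have := pow_lt_pow_left₀ hn (by positivity) (by norm_num : (4 : ℕ) ≠ 0)
    linarith
  have h4 : (2 : ℝ) ^ k = 2 * 2 ^ (k - 1) := by
    rw [← pow_succ']; congr 1; omega
  rw [h4]; linarith

/-- **dual Sudakov inequality** -/
theorem dual_sudakov (P : Seminorm ℝ E) {k : ℕ} (hk : 1 ≤ k) :
    Cv (Metric.closedBall (0 : E) 1) P (2 ^ k) (4 * ellp P / Real.sqrt k) := by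
  have hk0 : (0 : ℝ) < k := by exact_mod_cast hk
  have hsk : 0 < Real.sqrt k := Real.sqrt_pos.2 hk0
  have hl := ellp_nonneg P
  have triv : ellp P ≤ 4 * ellp P / Real.sqrt k →
      Cv (Metric.closedBall (0 : E) 1) P (2 ^ k) (4 * ellp P / Real.sqrt k) := by
    intro h
    refine ⟨{0}, by simpa using Nat.one_le_two_pow, fun x hx => ⟨0, by simp, ?_⟩⟩
    rw [sub_zero]
    have h1 : ‖x‖ ≤ 1 := by simpa using hx
    refine ((le_ellp P x).trans ?_).trans h
    nlinarith
  rcases hl.eq_or_lt with h0 | h0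
  · exact triv (by rw [← h0]; simp)
  rcases Nat.lt_or_ge k 2 with h2 | h2
  · refine triv ?_
    have : k = 1 := by omega
    rw [this]; simp; linarith
  have hsq : Real.sqrt k ^ 2 = k := Real.sq_sqrt hk0.le
  have he : 0 < 2 * ellp P / Real.sqrt k := by positivity
  obtain ⟨s, h1, h3, h4⟩ := exists_net (K := Metric.closedBall (0 : E) 1) (V := P) (n := 2 ^ k)
    (e := 2 * (2 * ellp P / Real.sqrt k)) (by rw [map_zero]; positivity)
    (fun x => map_neg_eq_map P x) (by
      intro s hs hsep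
      have hr : 0 < Real.sqrt 2 * ellp P := by positivity
      have h5 := sep_bound P hr he (by
        rw [mul_pow, Real.sq_sqrt (by norm_num)]) s (fun x hx => by simpa using hs x hx) hsep
      have h6 : (Real.sqrt 2 * ellp P) ^ 2 / (2 * (2 * ellp P / Real.sqrt k) ^ 2) = k / 4 := by
        rw [mul_pow, Real.sq_sqrt (by norm_num), div_pow, mul_pow, hsq]
        field_simp
        norm_num
      rw [h6] at h5
      have h7 := h5.trans (two_exp_le h2)
      exact_mod_cast h7)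
  refine ⟨s, h3, fun x hx => (h4 x hx).imp fun y hy => ⟨hy.1, hy.2.trans (le_of_eq (by ring))⟩⟩

/-- the polar ball -/
def pol (P : Seminorm ℝ E) : Set E := {x | ∀ y, ⟪x, y⟫ ≤ P y}

theorem pol_norm (P : Seminorm ℝ E) {x : E} (hx : x ∈ pol P) : ‖x‖ ≤ ellp P := by
  have h1 := hx x
  rw [real_inner_self_eq_norm_sq] at h1
  have h2 := h1.trans (le_ellp P x)
  rcases (norm_nonneg x).eq_or_lt with h0 | h0
  · rw [← h0]; exact ellp_nonneg P
  · nlinarith

/-- Tomczak's trick -/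
theorem tomczak (P : Seminorm ℝ E) {ε : ℝ} (hε : 0 < ε) {n m : ℕ}
    (h1 : Cv (pol P) (fun x => ‖x‖) n (2 * ε))
    (h2 : Cv (Metric.closedBall (0 : E) 1) P m (ε / 8)) :
    Cv (pol P) (fun x => ‖x‖) (n * m) ε := by
  classical
  obtain ⟨s, hs, hs'⟩ := h1
  obtain ⟨t, ht, ht'⟩ := h2
  let A : E × E → Set E := fun p => {x | x ∈ pol P ∧ P (x - p.1 - (2 * ε) • p.2) ≤ ε ^ 2 / 4}
  let c : E × E → E := fun p => if h : (A p).Nonempty then h.some else 0
  have hc : ∀ p, ∀ x ∈ A p, c p ∈ A p := by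
    intro p x hx
    have h : (A p).Nonempty := ⟨x, hx⟩
    show (if h : (A p).Nonempty then h.some else 0) ∈ A p
    rw [dif_pos h]
    exact h.some_mem
  refine ⟨(s ×ˢ t).image c, ?_, ?_⟩
  · refine Finset.card_image_le.trans ?_
    rw [Finset.card_product]
    exact Nat.mul_le_mul hs ht
  · intro x hx
    obtain ⟨y, hy, hxy⟩ := hs' x hx
    have h3 : (2 * ε)⁻¹ • (x - y) ∈ Metric.closedBall (0 : E) 1 := by
      rw [mem_closedBall_zero_iff, norm_smul, norm_inv, Real.norm_eq_abs,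
        abs_of_pos (by positivity), inv_mul_le_iff₀ (by positivity)]
      simpa using hxy
    obtain ⟨z, hz, hxz⟩ := ht' _ h3
    have hA : x ∈ A (y, z) := by
      refine ⟨hx, ?_⟩
      have e1 : x - y - (2 * ε) • z = (2 * ε) • ((2 * ε)⁻¹ • (x - y) - z) := by
        rw [smul_sub, smul_smul, mul_inv_cancel₀ (by positivity), one_smul]
      show P (x - y - (2 * ε) • z) ≤ ε ^ 2 / 4
      rw [e1, map_smul_eq_mul, Real.norm_eq_abs, abs_of_pos (by positivity)]
      have := mul_le_mul_of_nonneg_left hxz (by positivity : (0 : ℝ) ≤ 2 * ε)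
      linarith
    have hcA := hc _ x hA
    refine ⟨c (y, z), Finset.mem_image_of_mem c (Finset.mk_mem_product hy hz), ?_⟩
    have h4 : P (x - c (y, z)) ≤ ε ^ 2 / 2 := by
      have e1 : x - c (y, z) = (x - y - (2 * ε) • z) - (c (y, z) - y - (2 * ε) • z) := by abel
      rw [e1]
      have := map_sub_le_add P (x - y - (2 * ε) • z) (c (y, z) - y - (2 * ε) • z)
      have h5 : P (x - y - (2 * ε) • z) ≤ ε ^ 2 / 4 := hA.2
      have h6 : P (c (y, z) - y - (2 * ε) • z) ≤ ε ^ 2 / 4 := hcA.2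
      linarith
    have h5 : ‖x - c (y, z)‖ ^ 2 ≤ 2 * P (x - c (y, z)) := by
      rw [← real_inner_self_eq_norm_sq, inner_sub_left]
      have h6 := hx (x - c (y, z))
      have h7 := hcA.1 (-(x - c (y, z)))
      rw [inner_neg_right, map_neg_eq_map] at h7
      linarith
    have h6 : ‖x - c (y, z)‖ ^ 2 ≤ ε ^ 2 := by linarith
    exact (pow_le_pow_iff_left₀ (norm_nonneg _) hε.le two_ne_zero).1 h6

/-- **Sudakov inequality** -/
theorem sudakov (P : Seminorm ℝ E) {k : ℕ} (hk : 1 ≤ k) :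
    Cv (pol P) (fun x => ‖x‖) (2 ^ k) (64 * ellp P / Real.sqrt k) := by
  have hl := ellp_nonneg P
  have triv : ∀ {k : ℕ}, 1 ≤ k → ellp P ≤ 64 * ellp P / Real.sqrt k →
      Cv (pol P) (fun x => ‖x‖) (2 ^ k) (64 * ellp P / Real.sqrt k) := by
    intro k hk h
    refine ⟨{0}, by simpa using Nat.one_le_two_pow, fun x hx => ⟨0, by simp, ?_⟩⟩
    rw [sub_zero]
    exact (pol_norm P hx).trans h
  rcases hl.eq_or_lt with h0 | h0
  · exact triv hk (by rw [← h0]; simp)
  induction k using Nat.strong_induction_on with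
  | _ k ih =>
    rcases Nat.lt_or_ge k 2 with h2 | h2
    · refine triv hk ?_
      have : k = 1 := by omega
      rw [this]; simp; linarith
    · have hk0 : (0 : ℝ) < k := by exact_mod_cast hk
      have hsk : 0 < Real.sqrt k := Real.sqrt_pos.2 hk0
      let k' := (k + 3) / 4
      have hk1 : 1 ≤ k' := by show 1 ≤ (k + 3) / 4; omega
      have hk2 : k' < k := by show (k + 3) / 4 < k; omega
      have hk3 : k ≤ 4 * k' := by show k ≤ 4 * ((k + 3) / 4); omega
      have hk4 : k' + k' ≤ k := by show (k + 3) / 4 + (k + 3) / 4 ≤ k; omega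
      have hk0' : (0 : ℝ) < k' := by exact_mod_cast hk1
      have hsk' : Real.sqrt k ≤ 2 * Real.sqrt k' := by
        have h3 : (k : ℝ) ≤ 4 * k' := by exact_mod_cast hk3
        calc Real.sqrt k ≤ Real.sqrt (4 * k') := Real.sqrt_le_sqrt h3
          _ = 2 * Real.sqrt k' := by
            rw [Real.sqrt_mul (by norm_num), show (4 : ℝ) = 2 ^ 2 by norm_num,
              Real.sqrt_sq (by norm_num)]
      have hs0 : 0 < Real.sqrt k' := Real.sqrt_pos.2 hk0'
      have hε : 0 < 64 * ellp P / Real.sqrt k := by positivity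
      have key : ∀ c : ℝ, 0 ≤ c → c / Real.sqrt k' ≤ 2 * (c / Real.sqrt k) := by
        intro c hc
        rw [← mul_div_assoc, div_le_div_iff₀ hs0 hsk]
        nlinarith
      have h3 : Cv (pol P) (fun x => ‖x‖) (2 ^ k') (2 * (64 * ellp P / Real.sqrt k)) :=
        (ih k' hk2 hk1).mono subset_rfl le_rfl (key _ (by positivity))
      have h4 : Cv (Metric.closedBall (0 : E) 1) P (2 ^ k') (64 * ellp P / Real.sqrt k / 8) :=
        (dual_sudakov P hk1).mono subset_rfl le_rfl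
          ((key _ (by positivity)).trans (le_of_eq (by ring)))
      refine (tomczak P hε h3 h4).mono subset_rfl ?_ le_rfl
      rw [← pow_add]
      exact Nat.pow_le_pow_right (by norm_num) hk4

end sud

end Pool.Agent.Work.MP_c13439_pq_h57
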