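import Pool.Agent.Work.MP_c13439_pq_helper57.EllNorm

/-! # Trace duality for `ell p` (helper57) -/

set_option autoImplicit false

open MeasureTheory ProbabilityTheory Set Module
open scoped RealInnerProductSpace ENNReal NNReal

namespace Pool.Agent.Work.MP_c13439_pq_h57

open Pool.PQ

variable {N : ℕ}

/-- rank one operator `x ↦ ⟪v, x⟫ u` -/
noncomputable def rk (u v : Eu N) : Op N := (innerSL ℝ v).smulRight u

theorem rk_apply (u v x : Eu N) : rk u v x = ⟪v, x⟫ • u := rfl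

theorem tr_rk (A : Op N) (u v : Eu N) : trL N (A ∘L rk u v) = ⟪v, A u⟫ := by
  set b := EuclideanSpace.basisFun (Fin N) ℝ
  rw [trL_sum]
  have h : ∀ i, ⟪b i, (A ∘L rk u v) (b i)⟫ = ⟪v, b i⟫ * ⟪b i, A u⟫ := by
    intro i
    show ⟪b i, A (⟪v, b i⟫ • u)⟫ = _
    rw [map_smul, inner_smul_right]
  have h2 : ∑ i, ⟪b i, (A ∘L rk u v) (b i)⟫ = ∑ i, ⟪v, b i⟫ * ⟪b i, A u⟫ :=
    Finset.sum_congr rfl fun i _ => h i
  exact h2.trans (b.sum_inner_mul_inner v (A u))

theorem op_sum (M : Op N) : M = ∑ i, ∑ j,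
    ⟪EuclideanSpace.basisFun (Fin N) ℝ i, M (EuclideanSpace.basisFun (Fin N) ℝ j)⟫ •
      rk (EuclideanSpace.basisFun (Fin N) ℝ i) (EuclideanSpace.basisFun (Fin N) ℝ j) := by
  set b := EuclideanSpace.basisFun (Fin N) ℝ
  ext1 x
  rw [sum_apply]
  simp_rw [sum_apply, smul_apply, rk_apply, smul_smul,
    ← Finset.sum_smul]
  have h1 : ∀ i, ∑ j, ⟪b i, M (b j)⟫ * ⟪b j, x⟫ = ⟪b i, M x⟫ := by
    intro i
    have h2 : M x = ∑ j, ⟪b j, x⟫ • M (b j) := by
      conv_lhs => rw [← b.sum_repr' x]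
      rw [map_sum]
      simp_rw [map_smul]
    rw [h2, inner_sum]
    refine Finset.sum_congr rfl fun j _ => ?_
    rw [inner_smul_right, mul_comm]
  simp_rw [h1]
  exact (b.sum_repr' (M x)).symm

/-- every functional on operators is a trace -/
theorem tr_repr (f : Op N →ₗ[ℝ] ℝ) : ∃ Φ : Op N, ∀ M, f M = trL N (Φ ∘L M) := by
  set b := EuclideanSpace.basisFun (Fin N) ℝ
  refine ⟨∑ i, ∑ j, f (rk (b i) (b j)) • rk (b j) (b i), fun M => ?_⟩
  rw [trL_comm]
  have h1 : M ∘L (∑ i, ∑ j, f (rk (b i) (b j)) • rk (b j) (b i)) =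
      ∑ i, ∑ j, f (rk (b i) (b j)) • (M ∘L rk (b j) (b i)) := by
    ext1 x
    simp only [ContinuousLinearMap.comp_apply, sum_apply,
      smul_apply, map_sum, map_smul]
  rw [h1, map_sum]
  simp_rw [map_sum, map_smul, tr_rk]
  conv_lhs => rw [op_sum M]
  rw [map_sum]
  simp_rw [map_sum, map_smul]
  refine Finset.sum_congr rfl fun i _ => Finset.sum_congr rfl fun j _ => ?_
  simp only [smul_eq_mul]
  exact mul_comm _ _

/-- a norming functional for `ell p` -/
theorem ell_norming (p : Seminorm ℝ (Eu N)) (B : Op N) :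
    ∃ Φ : Op N, StarLe p Φ 1 ∧ trL N (Φ ∘L B) = ell p B := by
  rcases eq_or_ne B 0 with rfl | hB
  · refine ⟨0, (starLe_iff _ _ _).2 fun V => ?_, ?_⟩
    · rw [ContinuousLinearMap.zero_comp, map_zero, one_mul]; exact ell_nonneg p V
    · rw [ContinuousLinearMap.zero_comp, map_zero, ell_zero]
  · obtain ⟨g, hg, hg'⟩ := exists_extension_of_le_sublinear
      (LinearPMap.mkSpanSingleton B (ell p B) hB : Op N →ₗ.[ℝ] ℝ) (ell p)
      (fun c hc x => by rw [ell_smul, abs_of_pos hc]) (ell_add p) (by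
        rintro ⟨x, hx⟩
        obtain ⟨c, rfl⟩ := Submodule.mem_span_singleton.1 hx
        rw [LinearPMap.mkSpanSingleton'_apply]
        show c • ell p B ≤ ell p (c • B)
        rw [ell_smul, smul_eq_mul]
        exact mul_le_mul_of_nonneg_right (le_abs_self c) (ell_nonneg p B))
    obtain ⟨Φ, hΦ⟩ := tr_repr g
    refine ⟨Φ, (starLe_iff _ _ _).2 fun V => ?_, ?_⟩
    · rw [← hΦ, one_mul]; exact hg' V
    · rw [← hΦ]
      have h1 := hg ⟨B, Submodule.mem_span_singleton_self B⟩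
      rw [LinearPMap.mkSpanSingleton'_apply_self] at h1
      exact h1

/-- the trace dual norm is attained -/
theorem star_att (X : DN N) (A : Op N) :
    ∃ V : Op N, ell X.p V ≤ 1 ∧ StarLe X.p A (trL N (A ∘L V)) := by
  have hc : IsCompact {V : Op N | ell X.p V ≤ 1} :=
    semi_compact (ellSem X.p) (fun B h => ell_eq_zero X h) 1
  have hcont : Continuous fun V : Op N => trL N (A ∘L V) :=
    trL_cont.comp (ContinuousLinearMap.compL ℝ (Eu N) (Eu N) (Eu N) A).continuous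
  obtain ⟨V, hV, hmax⟩ := hc.exists_isMaxOn ⟨0, by
    show ell X.p 0 ≤ 1
    rw [ell_zero]; exact zero_le_one⟩ hcont.continuousOn
  refine ⟨V, hV, (starLe_iff _ _ _).2 fun V' => ?_⟩
  rcases (ell_nonneg X.p V').eq_or_lt with h0 | h0
  · have : V' = 0 := ell_eq_zero X h0.symm
    rw [this, ContinuousLinearMap.comp_zero, map_zero, ell_zero, mul_zero]
  · have h1 : (ell X.p V')⁻¹ • V' ∈ {V : Op N | ell X.p V ≤ 1} := by
      show ell X.p _ ≤ 1
      rw [ell_smul, abs_of_pos (inv_pos.2 h0), inv_mul_cancel₀ h0.ne']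
    have h2 : trL N (A ∘L ((ell X.p V')⁻¹ • V')) ≤ trL N (A ∘L V) := hmax h1
    rw [ContinuousLinearMap.comp_smul, map_smul, smul_eq_mul, inv_mul_le_iff₀ h0] at h2
    rw [mul_comm]
    exact h2

theorem comp_cont : Continuous fun z : Op N × Op N => z.1 ∘L z.2 := by
  exact (ContinuousLinearMap.compL ℝ (Eu N) (Eu N) (Eu N)).isBoundedBilinearMap.continuous

theorem star_bound (p : Seminorm ℝ (Eu N)) : ∃ C : ℝ, 0 < C ∧ ∀ (A : Op N) (c : ℝ), 0 ≤ c →
    StarLe p A c → ‖A‖ ≤ C * c := by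
  obtain ⟨C, hC, h⟩ := semi_upper (ellSem p)
  refine ⟨C, hC, fun A c hc hA => ?_⟩
  have h1 := hA (ContinuousLinearMap.adjoint A)
  have h2 := norm_sq_le_tr A
  have h3 := h (ContinuousLinearMap.adjoint A)
  have h4 : ‖ContinuousLinearMap.adjoint A‖ = ‖A‖ := ContinuousLinearMap.adjoint.norm_map A
  rw [h4] at h3
  have h5 : ‖A‖ ^ 2 ≤ c * (C * ‖A‖) := (h2.trans h1).trans (mul_le_mul_of_nonneg_left h3 hc)
  rcases (norm_nonneg A).eq_or_lt with h0 | h0
  · rw [← h0]; positivity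
  · nlinarith

theorem star_closed (p : Seminorm ℝ (Eu N)) :
    IsClosed {z : Op N × ℝ | StarLe p z.1 z.2} := by
  have e : {z : Op N × ℝ | StarLe p z.1 z.2} =
      ⋂ V : Op N, {z | trL N (z.1 ∘L V) ≤ z.2 * ell p V} := by
    ext z; simp only [mem_iInter]; rfl
  rw [e]
  refine isClosed_iInter fun V => isClosed_le ?_ ?_
  · exact trL_cont.comp (comp_cont.comp (continuous_fst.prodMk continuous_const))
  · exact continuous_snd.mul continuous_const

theorem star_compact (p : Seminorm ℝ (Eu N)) {c : ℝ} (hc : 0 ≤ c) :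
    IsCompact {A : Op N | StarLe p A c} := by
  obtain ⟨C, hC, h⟩ := star_bound p
  refine (isCompact_closedBall (0 : Op N) (C * c)).of_isClosed_subset ?_ fun A hA => ?_
  · exact (star_closed p).preimage (f := fun A : Op N => (A, c))
      (continuous_id.prodMk continuous_const)
  · rw [mem_closedBall_zero_iff]
    exact h A c hc hA

theorem ell_cont (p : Seminorm ℝ (Eu N)) : Continuous (ell p) := semi_cont' (ellSem p)

theorem ell_ball_compact (X : DN N) (c : ℝ) : IsCompact {V : Op N | ell X.p V ≤ c} :=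
  semi_compact (ellSem X.p) (fun _ h => ell_eq_zero X h) c

end Pool.Agent.Work.MP_c13439_pq_h57
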