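import Pool.Agent.Work.MP_c13439_pq_helper57.RPos

/-! # The volume argument of Lemma L (helper57) -/

set_option autoImplicit false

open MeasureTheory ProbabilityTheory Set Module Filter Topology
open scoped RealInnerProductSpace ENNReal NNReal

namespace Pool.Agent.Work.MP_c13439_pq_h57

open Pool.PQ

/-- `(2π)^(-k/2)` -/
noncomputable def gc (k : ℕ) : ℝ := (2 * Real.pi) ^ (-(k : ℝ) / 2)

theorem gc_pos (k : ℕ) : 0 < gc k := by
  unfold gc
  have : (0 : ℝ) < 2 * Real.pi := by positivity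
  positivity

theorem gd_eq {k : ℕ} (x : Eu k) : gd x = gc k * Real.exp (-‖x‖ ^ 2 / 2) := by
  unfold gd gc
  rw [finrank_euclideanSpace_fin]

theorem std_lint {k : ℕ} {K : Set (Eu k)} (hK : MeasurableSet K) :
    gs k K = ∫⁻ x in K, ENNReal.ofReal (gd x) := by
  show stdGaussian (Eu k) K = _
  rw [std_density, withDensity_apply _ hK]

/-- lower bound for the volume of a set of large Gaussian measure -/
theorem vol_ge {k : ℕ} {K : Set (Eu k)} (hK : MeasurableSet K) :
    gs k K ≤ ENNReal.ofReal (gc k) * volume K := by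
  rw [std_lint hK]
  calc ∫⁻ x in K, ENNReal.ofReal (gd x) ≤ ∫⁻ _ in K, ENNReal.ofReal (gc k) := by
        refine lintegral_mono fun x => ENNReal.ofReal_le_ofReal ?_
        rw [gd_eq]
        refine mul_le_of_le_one_right (gc_pos k).le ?_
        rw [Real.exp_le_one_iff]
        have := sq_nonneg ‖x‖
        linarith
    _ = _ := by rw [setLIntegral_const]

/-- upper bound for the volume of the ball of radius `√k` -/
theorem vol_ball_le (k : ℕ) : ENNReal.ofReal (gc k * Real.exp (-(k : ℝ) / 2)) *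
    volume (Metric.closedBall (0 : Eu k) (Real.sqrt k)) ≤ 1 := by
  have h1 : gs k (Metric.closedBall (0 : Eu k) (Real.sqrt k)) ≤ 1 := prob_le_one
  refine le_trans ?_ h1
  rw [std_lint Metric.isClosed_closedBall.measurableSet, ← setLIntegral_const]
  refine setLIntegral_mono' Metric.isClosed_closedBall.measurableSet fun x hx => ?_
  refine ENNReal.ofReal_le_ofReal ?_
  rw [gd_eq]
  refine mul_le_mul_of_nonneg_left (Real.exp_le_exp.2 ?_) (gc_pos k).le
  rw [mem_closedBall_zero_iff] at hx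
  have h2 := pow_le_pow_left₀ (norm_nonneg x) hx 2
  rw [Real.sq_sqrt (Nat.cast_nonneg k)] at h2
  linarith

/-- **volume comparison** -/
theorem vol_compare {k : ℕ} (hk : 1 ≤ k) (D : Eu k →L[ℝ] Eu k) (Q : Seminorm ℝ (Eu k))
    (hQ : ellp Q ≤ 1) {n : ℕ} {r : ℝ} (hr : 0 ≤ r)
    (hcov : ∃ s : Finset (Eu k), s.card ≤ n ∧ ∀ h, Q h ≤ 2 → ∃ c ∈ s, ‖D h - c‖ ≤ r) :
    |LinearMap.det D.toLinearMap| ≤
      4 / 3 * n * (r * Real.sqrt (Real.exp 1) / Real.sqrt k) ^ k := by
  classical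
  obtain ⟨s, hs, hs'⟩ := hcov
  have hk0 : (0 : ℝ) < k := by exact_mod_cast hk
  have hsk : 0 < Real.sqrt k := Real.sqrt_pos.2 hk0
  set K : Set (Eu k) := {h | Q h ≤ 2} with hK
  have hKm : MeasurableSet K := measurableSet_le (semi_cont Q).measurable measurable_const
  set ω : ℝ≥0∞ := volume (Metric.ball (0 : Eu k) 1) with hω
  have hωt : ω ≠ ∞ := measure_ball_lt_top.ne
  have hfr : finrank ℝ (Eu k) = k := finrank_euclideanSpace_fin
  -- the covering
  have h1 : volume (D '' K) ≤ ENNReal.ofReal (n * r ^ k) * ω := by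
    have h2 : D '' K ⊆ ⋃ c ∈ s, Metric.closedBall c r := by
      rintro _ ⟨h, hh, rfl⟩
      obtain ⟨c, hc, hc'⟩ := hs' h hh
      simp only [mem_iUnion]
      exact ⟨c, hc, by rw [mem_closedBall_iff_norm]; exact hc'⟩
    calc volume (D '' K) ≤ volume (⋃ c ∈ s, Metric.closedBall c r) := measure_mono h2
      _ ≤ ∑ c ∈ s, volume (Metric.closedBall c r) := measure_biUnion_finset_le _ _
      _ = ∑ c ∈ s, ENNReal.ofReal (r ^ k) * ω := by
          refine Finset.sum_congr rfl fun c _ => ?_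
          rw [Measure.addHaar_closedBall _ _ hr, hfr]
      _ = s.card * (ENNReal.ofReal (r ^ k) * ω) := by rw [Finset.sum_const, nsmul_eq_mul]
      _ ≤ n * (ENNReal.ofReal (r ^ k) * ω) := by gcongr
      _ = ENNReal.ofReal (n * r ^ k) * ω := by
          rw [ENNReal.ofReal_mul (Nat.cast_nonneg n), ENNReal.ofReal_natCast, mul_assoc]
  have h2 : volume (D '' K) = ENNReal.ofReal |LinearMap.det D.toLinearMap| * volume K :=
    Measure.addHaar_image_linearMap _ D.toLinearMap K
  rw [h2] at h1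
  -- Gaussian measure of `K`
  have h3 : ENNReal.ofReal (3 / 4) ≤ gs k K := by
    have h4 := cheb Q (r := 2) (by norm_num)
    have h5 : ellp Q ^ 2 ≤ 1 := pow_le_one₀ (ellp_nonneg Q) hQ
    have h6 : (3 : ℝ) / 4 ≤ (stdGaussian (Eu k)).real K := by
      refine le_trans ?_ h4
      norm_num
      linarith
    have h7 : gs k K = ENNReal.ofReal ((stdGaussian (Eu k)).real K) :=
      (ofReal_measureReal (measure_ne_top _ _)).symm
    rw [h7]
    exact ENNReal.ofReal_le_ofReal h6
  have h4 := h3.trans (vol_ge hKm)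
  -- the unit ball
  have h5 := vol_ball_le k
  rw [Measure.addHaar_closedBall _ _ (Real.sqrt_nonneg _), hfr, ← hω] at h5
  have hA0 : 0 ≤ |LinearMap.det D.toLinearMap| := abs_nonneg _
  -- real numbers
  set A := |LinearMap.det D.toLinearMap|
  set g := gc k
  have hg : 0 < g := gc_pos k
  have hωr : ω = ENNReal.ofReal ω.toReal := (ENNReal.ofReal_toReal hωt).symm
  have h6 : ENNReal.ofReal (3 / 4) * ENNReal.ofReal A ≤
      ENNReal.ofReal g * (ENNReal.ofReal (n * r ^ k) * ω) := by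
    calc ENNReal.ofReal (3 / 4) * ENNReal.ofReal A ≤
        (ENNReal.ofReal g * volume K) * ENNReal.ofReal A := by gcongr
      _ = ENNReal.ofReal g * (ENNReal.ofReal A * volume K) := by ring
      _ ≤ _ := by gcongr
  rw [hωr] at h6 h5
  have hw0 : 0 ≤ ω.toReal := ENNReal.toReal_nonneg
  have hnr : 0 ≤ (n : ℝ) * r ^ k := by positivity
  rw [← ENNReal.ofReal_mul (by norm_num), ← ENNReal.ofReal_mul hnr, ← ENNReal.ofReal_mul hg.le,
    ENNReal.ofReal_le_ofReal_iff (by positivity)] at h6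
  rw [← ENNReal.ofReal_mul (by positivity), ← ENNReal.ofReal_mul (by positivity),
    ENNReal.ofReal_le_one] at h5
  set w := ω.toReal
  have e1 : Real.exp (-(k : ℝ) / 2) * Real.sqrt (Real.exp 1) ^ k = 1 := by
    rw [Real.sqrt_eq_rpow, ← Real.exp_mul, ← Real.exp_nat_mul, ← Real.exp_add]
    rw [show -(k : ℝ) / 2 + k * (1 * (1 / 2)) = 0 by ring, Real.exp_zero]
  have hE : 0 < Real.sqrt (Real.exp 1) ^ k := by positivity
  have hS : 0 < Real.sqrt k ^ k := by positivity
  -- `g w ≤ √e^k / √k^k`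
  have h7 : g * w * Real.sqrt k ^ k ≤ Real.sqrt (Real.exp 1) ^ k := by
    have h8 := mul_le_mul_of_nonneg_right h5 hE.le
    have h9 : g * Real.exp (-(k : ℝ) / 2) * (Real.sqrt k ^ k * w) * Real.sqrt (Real.exp 1) ^ k =
        g * w * Real.sqrt k ^ k * (Real.exp (-(k : ℝ) / 2) * Real.sqrt (Real.exp 1) ^ k) := by ring
    rw [h9, e1, mul_one, one_mul] at h8
    exact h8
  have h8 : (r * Real.sqrt (Real.exp 1) / Real.sqrt k) ^ k =
      r ^ k * (Real.sqrt (Real.exp 1) ^ k / Real.sqrt k ^ k) := by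
    rw [div_pow, mul_pow]; ring
  rw [h8]
  have h9 : g * w ≤ Real.sqrt (Real.exp 1) ^ k / Real.sqrt k ^ k := by
    rw [le_div_iff₀ hS]; exact h7
  have h10 : 3 / 4 * A ≤ (n : ℝ) * r ^ k * (Real.sqrt (Real.exp 1) ^ k / Real.sqrt k ^ k) := by
    refine h6.trans ?_
    have := mul_le_mul_of_nonneg_left h9 hnr
    calc g * ((n : ℝ) * r ^ k * w) = (n : ℝ) * r ^ k * (g * w) := by ring
      _ ≤ _ := this
  calc A = 4 / 3 * (3 / 4 * A) := by ring
    _ ≤ 4 / 3 * ((n : ℝ) * r ^ k * (Real.sqrt (Real.exp 1) ^ k / Real.sqrt k ^ k)) := by gcongr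
    _ = _ := by ring

end Pool.Agent.Work.MP_c13439_pq_h57
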